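import Mathlib

open MeasureTheory Matrix
open scoped ENNReal

namespace Pool.Agent.Lib.MP_ed9c69_gt

lemma ae_linearIndependent (n : ℕ) : ∀ k : ℕ, k ≤ n →
    ∀ᵐ v : Fin k → (Fin n → ℝ), LinearIndependent ℝ v := by
  intro k
  induction k with
  | zero => intro _; exact Filter.Eventually.of_forall fun v => linearIndependent_empty_type
  | succ k ih =>
    intro hk
    have ih' := ih (by omega)
    have hmp := volume_preserving_piFinSuccAbove (fun _ : Fin (k + 1) => (Fin n → ℝ)) 0
    have hopen : IsOpen {p : (Fin n → ℝ) × (Fin k → Fin n → ℝ) |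
        LinearIndependent ℝ (Fin.cons p.1 p.2 : Fin (k + 1) → Fin n → ℝ)} := by
      have h1 : IsOpen {f : Fin (k + 1) → Fin n → ℝ | LinearIndependent ℝ f} :=
        isOpen_setOfPred_linearIndependent
      refine h1.preimage (f := fun p : (Fin n → ℝ) × (Fin k → Fin n → ℝ) =>
        (Fin.cons p.1 p.2 : Fin (k + 1) → Fin n → ℝ)) ?_
      refine continuous_pi fun i => ?_
      refine Fin.cases ?_ (fun i => ?_) i
      · simpa using continuous_fst
      · simp only [Fin.cons_succ]; fun_prop
    have h2 : ∀ᵐ p : (Fin n → ℝ) × (Fin k → Fin n → ℝ),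
        LinearIndependent ℝ (Fin.cons p.1 p.2 : Fin (k + 1) → Fin n → ℝ) := by
      have hsw := Measure.measurePreserving_swap (μ := (volume : Measure (Fin k → Fin n → ℝ)))
        (ν := (volume : Measure (Fin n → ℝ)))
      have h3 : ∀ᵐ q : (Fin k → Fin n → ℝ) × (Fin n → ℝ) ∂(volume.prod volume),
          q ∈ Prod.swap ⁻¹' {p : (Fin n → ℝ) × (Fin k → Fin n → ℝ) |
            LinearIndependent ℝ (Fin.cons p.1 p.2 : Fin (k + 1) → Fin n → ℝ)} := by
        rw [Measure.ae_prod_mem_iff_ae_ae_mem
          (hopen.preimage continuous_swap).measurableSet]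
        filter_upwards [ih'] with v hv
        have hne : Submodule.span ℝ (Set.range v) ≠ ⊤ := by
          intro htop
          have h4 := finrank_span_eq_card hv
          rw [htop] at h4
          simp at h4
          omega
        have h5 := Measure.addHaar_submodule (volume : Measure (Fin n → ℝ)) _ hne
        have h6 : ∀ᵐ x : Fin n → ℝ, x ∉ Submodule.span ℝ (Set.range v) := by
          rw [ae_iff]; simpa using h5
        filter_upwards [h6] with x hx
        exact linearIndependent_finCons.2 ⟨hv, hx⟩
      have hsw' := Measure.measurePreserving_swap (μ := (volume : Measure (Fin n → ℝ)))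
        (ν := (volume : Measure (Fin k → Fin n → ℝ)))
      have h7 := hsw'.quasiMeasurePreserving.ae h3
      exact h7
    have h8 := hmp.quasiMeasurePreserving.ae h2
    filter_upwards [h8] with v hv
    convert hv using 1
    ext i j
    refine Fin.cases ?_ (fun i => ?_) i <;> simp [MeasurableEquiv.piFinSuccAbove, Fin.tail]

lemma ae_det_ne_zero (n : ℕ) : ∀ᵐ M : Fin n → Fin n → ℝ, (Matrix.of M).det ≠ 0 := by
  filter_upwards [ae_linearIndependent n n le_rfl] with M hM
  have h : IsUnit (Matrix.of M) := Matrix.linearIndependent_rows_iff_isUnit.mp hM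
  exact ((Matrix.isUnit_iff_isUnit_det _).mp h).ne_zero

/-- splitting the coordinates along an injective index map -/
lemma exists_split {α : Type} [MeasureSpace α] [SigmaFinite (volume : Measure α)] {n N : ℕ}
    (I : Fin n → Fin N) (hI : Function.Injective I) :
    ∃ e : (Fin N → α) ≃ᵐ (Fin n → α) × ({i // i ∉ Set.range I} → α),
      MeasurePreserving e volume (volume.prod volume) ∧
      (∀ G, (e G).1 = G ∘ I) ∧ ∀ G i, (e G).2 i = G i := by
  classical
  let e1 := MeasurableEquiv.piEquivPiSubtypeProd (fun _ : Fin N => α) (fun i => i ∈ Set.range I)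
  let f : Fin n ≃ {i // i ∈ Set.range I} := Equiv.ofInjective I hI
  let e2 := MeasurableEquiv.piCongrLeft (fun _ : {i // i ∈ Set.range I} => α) f
  let e3 := MeasurableEquiv.prodCongr e2.symm
    (MeasurableEquiv.refl ({i // i ∉ Set.range I} → α))
  have h1 : MeasurePreserving e1 volume volume := by
    have h := volume_preserving_piEquivPiSubtypeProd (fun _ : Fin N => α)
      (fun i => i ∈ Set.range I)
    rw [Subsingleton.elim (Subtype.fintype fun i => i ∈ Set.range I) (Set.fintypeRange I)] at h
    exact h
  have h2 : MeasurePreserving e2 volume volume := volume_measurePreserving_piCongrLeft _ f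
  have h3 : MeasurePreserving e3 (volume.prod volume) (volume.prod volume) :=
    (h2.symm e2).prod (MeasurePreserving.id _)
  refine ⟨e1.trans e3, h3.comp h1, ?_, ?_⟩
  · intro G
    ext j
    simp [e1, e2, e3, f, MeasurableEquiv.prodCongr, MeasurableEquiv.piCongrLeft,
      MeasurableEquiv.piEquivPiSubtypeProd, Equiv.piCongrLeft, Equiv.piCongrLeft']
  · intro G i
    rfl

lemma lintegral_split {α : Type} [MeasureSpace α] [SigmaFinite (volume : Measure α)] {n N : ℕ}
    (I : Fin n → Fin N) (hI : Function.Injective I) (f : (Fin n → α) → ℝ≥0∞)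
    (S : (Fin n → α) → Set α) (hS : ∀ M, MeasurableSet (S M)) :
    ∫⁻ G : Fin N → α, f (G ∘ I) * Set.indicator {G : Fin N → α | ∀ i, G i ∈ S (G ∘ I)} 1 G ≤
      ∫⁻ M : Fin n → α, f M * volume (S M) ^ (N - n) := by
  classical
  obtain ⟨e, he, he1, he2⟩ := exists_split (α := α) I hI
  let F : (Fin n → α) × ({i // i ∉ Set.range I} → α) → ℝ≥0∞ := fun z =>
    f z.1 * Set.indicator (Set.pi Set.univ fun _ => S z.1) 1 z.2
  have hcard : Fintype.card {i // i ∉ Set.range I} = N - n := by
    rw [Fintype.card_subtype_compl, Fintype.card_fin]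
    congr 1
    have := Set.card_range_of_injective hI
    rw [Fintype.card_fin] at this
    convert this
  calc ∫⁻ G : Fin N → α, f (G ∘ I) * Set.indicator {G : Fin N → α | ∀ i, G i ∈ S (G ∘ I)} 1 G
      ≤ ∫⁻ G : Fin N → α, F (e G) := by
        refine lintegral_mono fun G => ?_
        simp only [F, he1]
        gcongr
        by_cases hG : G ∈ {G : Fin N → α | ∀ i, G i ∈ S (G ∘ I)}
        · rw [Set.indicator_of_mem hG, Set.indicator_of_mem]
          · exact le_rfl
          · intro i _
            rw [he2]
            exact hG i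
        · rw [Set.indicator_of_notMem hG]
          exact zero_le
    _ = ∫⁻ z, F z ∂(volume.prod volume) := he.lintegral_comp_emb e.measurableEmbedding F
    _ ≤ ∫⁻ M, ∫⁻ y, F (M, y) := lintegral_prod_le F
    _ = ∫⁻ M : Fin n → α, f M * volume (S M) ^ (N - n) := by
        refine lintegral_congr fun M => ?_
        have hm : MeasurableSet (Set.pi Set.univ fun _ : {i // i ∉ Set.range I} => S M) :=
          MeasurableSet.univ_pi fun _ => hS M
        simp only [F]
        rw [lintegral_const_mul _ (measurable_one.indicator hm), lintegral_indicator_one hm,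
          volume_pi_pi, Finset.prod_const, Finset.card_univ, hcard]

lemma ae_det_comp_ne_zero {n N : ℕ} (I : Fin n → Fin N) (hI : Function.Injective I) :
    ∀ᵐ G : Fin N → Fin n → ℝ, (Matrix.of (G ∘ I)).det ≠ 0 := by
  obtain ⟨e, he, he1, -⟩ := exists_split (α := Fin n → ℝ) I hI
  have h1 := (Measure.quasiMeasurePreserving_fst.comp he.quasiMeasurePreserving).ae
    (ae_det_ne_zero n)
  filter_upwards [h1] with G hG
  simpa [he1] using hG

end Pool.Agent.Lib.MP_ed9c69_gt
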