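import Pool.Agent.Lib.MP_ed9c69_gt.Hull
import Pool.Agent.Lib.MP_ed9c69_gt.Split

open MeasureTheory Matrix
open scoped ENNReal

namespace Pool.Agent.Lib.MP_ed9c69_gt

/-- matrices with all entries bounded by `R` -/
def Box (N n : ℕ) (R : ℝ) : Set (Fin N → Fin n → ℝ) :=
  Set.pi Set.univ fun _ => Set.pi Set.univ fun _ => Set.Icc (-R) R

lemma measurableSet_Box (N n : ℕ) (R : ℝ) : MeasurableSet (Box N n R) :=
  MeasurableSet.univ_pi fun _ => MeasurableSet.univ_pi fun _ => measurableSet_Icc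

lemma volume_Box (N n : ℕ) (R : ℝ) :
    volume (Box N n R) = ENNReal.ofReal (2 * R) ^ (n * N) := by
  simp only [Box, volume_pi_pi, Real.volume_Icc, Finset.prod_const, Finset.card_univ,
    Fintype.card_fin, ← pow_mul]
  congr 2
  ring

/-- a union of small cubes -/
def cubes {n : ℕ} (T : Finset (Fin n → ℝ)) : Set (Fin n → ℝ) :=
  ⋃ z ∈ T, Metric.closedBall z (1 / (2 * (n : ℝ)))

lemma isCompact_cubes {n : ℕ} (T : Finset (Fin n → ℝ)) : IsCompact (cubes T) :=
  T.isCompact_biUnion fun z _ => isCompact_closedBall z _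

lemma exists_net {n : ℕ} (hn : 0 < n) : ∃ T : Finset (Fin n → ℝ),
    ∀ t : Fin n → ℝ, (∀ j, |t j| ≤ 1) → ∃ z ∈ T, t ∈ Metric.closedBall z (1 / (2 * (n : ℝ))) := by
  have hK : IsCompact (Set.pi Set.univ (fun _ : Fin n => Set.Icc (-1 : ℝ) 1)) :=
    isCompact_univ_pi fun _ => isCompact_Icc
  have hpos : (0 : ℝ) < 1 / (2 * (n : ℝ)) := by positivity
  obtain ⟨t, -, htf, ht⟩ := hK.finite_cover_balls hpos
  refine ⟨htf.toFinset, fun x hx => ?_⟩
  have hx' : x ∈ Set.pi Set.univ (fun _ : Fin n => Set.Icc (-1 : ℝ) 1) :=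
    fun j _ => abs_le.mp (hx j)
  have := ht hx'
  simp only [Set.mem_iUnion] at this
  obtain ⟨z, hz, hxz⟩ := this
  exact ⟨z, htf.mem_toFinset.mpr hz, Metric.ball_subset_closedBall hxz⟩

lemma exists_good_rows {N n : ℕ} (G : Fin N → Fin n → ℝ) (I₀ : Fin n → Fin N)
    (h₀ : (Matrix.of (G ∘ I₀)).det ≠ 0) :
    ∃ I : Fin n → Fin N, Function.Injective I ∧
      ∀ i, ∃ t : Fin n → ℝ, (∀ j, |t j| ≤ 1) ∧ t ᵥ* Matrix.of (G ∘ I) = G i := by
  classical
  obtain ⟨I, -, hI⟩ := Finset.exists_max_image (Finset.univ : Finset (Fin n → Fin N))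
    (fun I => |(Matrix.of (G ∘ I)).det|) ⟨I₀, Finset.mem_univ _⟩
  have hD : (Matrix.of (G ∘ I)).det ≠ 0 := by
    intro h
    have := hI I₀ (Finset.mem_univ _)
    rw [h, abs_zero] at this
    exact h₀ (abs_nonpos_iff.mp this)
  refine ⟨I, ?_, fun i => ?_⟩
  · intro a b hab
    by_contra hne
    refine hD (Matrix.det_zero_of_row_eq hne ?_)
    ext j
    simp [hab]
  · refine ⟨((Matrix.of (G ∘ I)).det)⁻¹ • Matrix.cramer (Matrix.of (G ∘ I))ᵀ (G i), ?_, ?_⟩
    · intro j
      have h1 : Matrix.cramer (Matrix.of (G ∘ I))ᵀ (G i) j =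
          (Matrix.of (G ∘ Function.update I j i)).det := by
        rw [Matrix.cramer_transpose_apply]
        congr 1
        ext a b
        by_cases hab : a = j
        · subst hab; simp
        · simp [Matrix.updateRow_ne hab, Function.update_of_ne hab]
      have h2 := hI (Function.update I j i) (Finset.mem_univ _)
      rw [Pi.smul_apply, smul_eq_mul, h1, abs_mul, abs_inv,
        inv_mul_le_iff₀ (abs_pos.mpr hD), mul_one]
      exact h2
    · rw [Matrix.smul_vecMul, ← Matrix.mulVec_transpose, Matrix.mulVec_cramer,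
        Matrix.det_transpose, smul_smul, inv_mul_cancel₀ hD, one_smul]

lemma img_cubes_subset {N n : ℕ} (hn : 0 < n) (G : Fin N → Fin n → ℝ) (I : Fin n → Fin N)
    (T : Finset (Fin n → ℝ))
    (hT : ∀ z ∈ T, ∃ i, ∃ t ∈ Metric.closedBall z (1 / (2 * (n : ℝ))),
      t ᵥ* Matrix.of (G ∘ I) = G i) :
    img (cubes T) (G ∘ I) ⊆ img (B1 N 2) G := by
  classical
  rintro y ⟨s, hs, rfl⟩
  simp only [cubes, Set.mem_iUnion] at hs
  obtain ⟨z, hz, hsz⟩ := hs
  obtain ⟨i, t, htz, hti⟩ := hT z hz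
  have hnr : (0 : ℝ) < n := by exact_mod_cast hn
  have hd : ∀ j, |s j - t j| ≤ 1 / (n : ℝ) := by
    intro j
    have h1 : dist s t ≤ 1 / (2 * (n : ℝ)) + 1 / (2 * (n : ℝ)) :=
      (dist_triangle_right s t z).trans (add_le_add hsz htz)
    have h2 : dist (s j) (t j) ≤ dist s t := dist_le_pi_dist s t j
    rw [Real.dist_eq] at h2
    have h3 : 1 / (2 * (n : ℝ)) + 1 / (2 * (n : ℝ)) = 1 / n := by field_simp; ring
    linarith
  have hsum : ∑ j, |s j - t j| ≤ 1 := by
    calc ∑ j, |s j - t j| ≤ ∑ _j : Fin n, 1 / (n : ℝ) := Finset.sum_le_sum fun j _ => hd j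
      _ = 1 := by simp; field_simp
  refine ⟨Pi.single i 1 + ∑ j, Pi.single (I j) (s j - t j), ?_, ?_⟩
  · simp only [B1, Set.mem_ofPred_eq, Pi.add_apply, Finset.sum_apply]
    calc ∑ k, |(Pi.single i (1 : ℝ) : Fin N → ℝ) k +
            ∑ j, (Pi.single (I j) (s j - t j) : Fin N → ℝ) k|
        ≤ ∑ k, (|(Pi.single i (1 : ℝ) : Fin N → ℝ) k| +
            ∑ j, |(Pi.single (I j) (s j - t j) : Fin N → ℝ) k|) := by
          refine Finset.sum_le_sum fun k _ => (abs_add_le _ _).trans ?_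
          gcongr
          exact Finset.abs_sum_le_sum_abs _ _
      _ = 1 + ∑ j, |s j - t j| := by
          rw [Finset.sum_add_distrib, Finset.sum_comm]
          congr 1
          · rw [Finset.sum_eq_single i] <;> simp +contextual
          · refine Finset.sum_congr rfl fun j _ => ?_
            rw [Finset.sum_eq_single (I j)] <;> simp +contextual
      _ ≤ 2 := by linarith
  · have h1 : s ᵥ* Matrix.of (G ∘ I) = G i + (s - t) ᵥ* Matrix.of (G ∘ I) := by
      rw [Matrix.sub_vecMul, hti]; ring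
    simp only []
    rw [h1, Matrix.add_vecMul, Matrix.sum_vecMul]
    congr 1
    · ext k; simp
    · ext k
      simp [Matrix.vecMul, dotProduct, Finset.sum_apply]

lemma ennreal_aux (τ c m : ℝ≥0∞) (hc : c ≠ 0) (hc' : c ≠ ⊤) (a b : ℕ) :
    (max (τ / c) m)⁻¹ ^ (a + b) * τ ^ a ≤ c ^ a * m⁻¹ ^ b := by
  set μ := max (τ / c) m with hμ
  have h1 : τ ≤ c * μ := by
    have : τ / c ≤ μ := le_max_left _ _
    rwa [ENNReal.div_le_iff' hc hc'] at this
  have h2 : μ⁻¹ ≤ m⁻¹ := ENNReal.inv_le_inv.mpr (le_max_right _ _)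
  calc μ⁻¹ ^ (a + b) * τ ^ a ≤ μ⁻¹ ^ (a + b) * (c * μ) ^ a := by gcongr
    _ = c ^ a * (μ * μ⁻¹) ^ a * μ⁻¹ ^ b := by rw [pow_add, mul_pow, mul_pow]; ring
    _ ≤ c ^ a * 1 ^ a * m⁻¹ ^ b := by gcongr; exact ENNReal.mul_inv_le_one μ
    _ = c ^ a * m⁻¹ ^ b := by simp

/-- The counting estimate. -/
lemma count_bound {n : ℕ} (hn : 0 < n) : ∃ A : ℕ, ∀ (N : ℕ), n ≤ N → ∀ (R : ℝ) (m : ℝ≥0∞),
    ∫⁻ G : Fin N → Fin n → ℝ,
      Set.indicator (Box N n R) (fun G => (max (volume (img (B1 N 1) G)) m)⁻¹ ^ N) G ≤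
      (N ^ n * A : ℕ) * (ENNReal.ofReal (2 * R) ^ (n * n) * ((2 ^ n) ^ (N - n) * m⁻¹ ^ n)) := by
  classical
  obtain ⟨T, hT⟩ := exists_net hn
  refine ⟨2 ^ T.card, fun N hN R m => ?_⟩
  let f : Finset (Fin n → ℝ) → (Fin n → Fin n → ℝ) → ℝ≥0∞ := fun T' M =>
    Set.indicator (Box n n R) (fun M => (max (volume (img (cubes T') M) / 2 ^ n) m)⁻¹ ^ N) M
  have hf : ∀ T', Measurable (f T') := by
    intro T'
    refine Measurable.indicator ?_ (measurableSet_Box _ _ _)
    have := measurable_vol_img (n := n) (isCompact_cubes T')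
    exact ((this.div_const _).max measurable_const).inv.pow_const _
  let Ψ : (Fin n → Fin N) × Finset (Fin n → ℝ) → (Fin N → Fin n → ℝ) → ℝ≥0∞ := fun p G =>
    f p.2 (G ∘ p.1) *
      Set.indicator {G : Fin N → Fin n → ℝ | ∀ i, G i ∈ img (cubes p.2) (G ∘ p.1)} 1 G
  have hΨ : ∀ p, Measurable (Ψ p) := by
    intro p
    have hc : Continuous (fun G : Fin N → Fin n → ℝ => G ∘ p.1) := by fun_prop
    refine ((hf p.2).comp hc.measurable).mul (measurable_one.indicator ?_)
    rw [Set.ofPred_forall]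
    refine MeasurableSet.iInter fun i => ?_
    exact ((isClosed_mem_img (n := n) (isCompact_cubes p.2)).preimage
      (f := fun G : Fin N → Fin n → ℝ => (G ∘ p.1, G i)) (by fun_prop)).measurableSet
  let P : Finset ((Fin n → Fin N) × Finset (Fin n → ℝ)) :=
    (Finset.univ.filter Function.Injective) ×ˢ T.powerset
  have hinj : Function.Injective (Fin.castLE hN) := Fin.castLE_injective hN
  have hpt : ∀ᵐ G : Fin N → Fin n → ℝ,
      Set.indicator (Box N n R) (fun G => (max (volume (img (B1 N 1) G)) m)⁻¹ ^ N) G ≤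
        ∑ p ∈ P, Ψ p G := by
    filter_upwards [ae_det_comp_ne_zero (Fin.castLE hN) hinj] with G hG
    by_cases hB : G ∈ Box N n R
    swap
    · rw [Set.indicator_of_notMem hB]; exact zero_le
    rw [Set.indicator_of_mem hB]
    obtain ⟨I, hI, hrows⟩ := exists_good_rows G _ hG
    choose t ht1 ht2 using hrows
    let T' := T.filter fun z => ∃ i, t i ∈ Metric.closedBall z (1 / (2 * (n : ℝ)))
    have hmem : (I, T') ∈ P := by
      simp only [P, Finset.mem_product, Finset.mem_filter, Finset.mem_univ, true_and,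
        Finset.mem_powerset]
      exact ⟨hI, Finset.filter_subset _ _⟩
    refine le_trans ?_ (Finset.single_le_sum (f := fun p => Ψ p G) (fun _ _ => zero_le) hmem)
    have h1 : G ∈ {G : Fin N → Fin n → ℝ | ∀ i, G i ∈ img (cubes T') (G ∘ I)} := by
      intro i
      obtain ⟨z, hz, htz⟩ := hT (t i) (ht1 i)
      refine ⟨t i, ?_, ht2 i⟩
      simp only [cubes, Set.mem_iUnion]
      exact ⟨z, Finset.mem_filter.mpr ⟨hz, i, htz⟩, htz⟩
    have h2 : G ∘ I ∈ Box n n R := fun a _ b _ => hB (I a) (Set.mem_univ _) b (Set.mem_univ _)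
    have h3 : img (cubes T') (G ∘ I) ⊆ img (B1 N 2) G := by
      refine img_cubes_subset hn G I T' fun z hz => ?_
      obtain ⟨i, hi⟩ := (Finset.mem_filter.mp hz).2
      exact ⟨i, t i, hi, ht2 i⟩
    have h4 : volume (img (cubes T') (G ∘ I)) / 2 ^ n ≤ volume (img (B1 N 1) G) := by
      refine ENNReal.div_le_of_le_mul' ((measure_mono h3).trans (le_of_eq ?_))
      rw [vol_img_B1 G two_pos, ENNReal.ofReal_pow (by norm_num)]
      simp
    simp only [Ψ, f]
    rw [Set.indicator_of_mem h1, Set.indicator_of_mem h2, Pi.one_apply, mul_one]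
    gcongr
  have hone : ∀ p ∈ P, ∫⁻ G, Ψ p G ≤
      ENNReal.ofReal (2 * R) ^ (n * n) * ((2 ^ n) ^ (N - n) * m⁻¹ ^ n) := by
    intro p hp
    have hI : Function.Injective p.1 := by
      simp only [P, Finset.mem_product, Finset.mem_filter] at hp
      exact hp.1.2
    refine (lintegral_split p.1 hI (f p.2) (fun M => img (cubes p.2) M)
      (fun M => (isCompact_img (isCompact_cubes p.2) M).measurableSet)).trans ?_
    rw [← volume_Box, mul_comm, ← lintegral_indicator_const (measurableSet_Box _ _ _)]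
    refine lintegral_mono fun M => ?_
    by_cases hM : M ∈ Box n n R
    · simp only [f]
      rw [Set.indicator_of_mem hM, Set.indicator_of_mem hM]
      have := ennreal_aux (volume (img (cubes p.2) M)) (2 ^ n) m (by simp) (by simp) (N - n) n
      rwa [Nat.sub_add_cancel hN] at this
    · simp only [f]
      rw [Set.indicator_of_notMem hM, zero_mul]
      exact zero_le
  have hcard : P.card ≤ N ^ n * 2 ^ T.card := by
    rw [Finset.card_product, Finset.card_powerset]
    gcongr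
    refine (Finset.card_filter_le _ _).trans ?_
    simp
  calc _ ≤ ∫⁻ G, ∑ p ∈ P, Ψ p G := lintegral_mono_ae hpt
    _ = ∑ p ∈ P, ∫⁻ G, Ψ p G := lintegral_finsetSum _ fun p _ => hΨ p
    _ ≤ ∑ _p ∈ P, ENNReal.ofReal (2 * R) ^ (n * n) * ((2 ^ n) ^ (N - n) * m⁻¹ ^ n) :=
        Finset.sum_le_sum hone
    _ ≤ _ := by
        rw [Finset.sum_const, nsmul_eq_mul]
        gcongr

end Pool.Agent.Lib.MP_ed9c69_gt
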