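import Mathlib

open MeasureTheory

namespace Pool.Agent.Lib.MP_ed9c69_gt

/-- Euclidean space of dimension `N`. -/
abbrev Euc (N : ℕ) : Type := EuclideanSpace ℝ (Fin N)

/-- The orthogonal group `O(N)`. -/
abbrev Orth (N : ℕ) : Type := Matrix.orthogonalGroup (Fin N) ℝ

/-- The Borel sigma-algebra on `O(N)`. -/
instance instMeasurableSpaceOrth (N : ℕ) : MeasurableSpace (Orth N) := borel _

instance instBorelSpaceOrth (N : ℕ) : BorelSpace (Orth N) := ⟨rfl⟩

instance instCompactSpaceOrth (N : ℕ) : CompactSpace (Orth N) := by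
  have hcl : IsClosed (unitary (Matrix (Fin N) (Fin N) ℝ) : Set (Matrix (Fin N) (Fin N) ℝ)) :=
    isClosed_unitary
  have hK : IsCompact (Set.pi Set.univ (fun _ : Fin N => Set.pi Set.univ
      (fun _ : Fin N => Set.Icc (-1 : ℝ) 1))) :=
    isCompact_univ_pi fun _ => isCompact_univ_pi fun _ => isCompact_Icc
  have hc : IsCompact (unitary (Matrix (Fin N) (Fin N) ℝ) : Set (Matrix (Fin N) (Fin N) ℝ)) := by
    refine hK.of_isClosed_subset hcl ?_
    intro U hU i _ j _
    have h := entry_norm_bound_of_unitary (𝕜 := ℝ) (U := U) hU i j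
    rw [Real.norm_eq_abs, abs_le] at h
    exact h
  exact isCompact_iff_compactSpace.mp hc

/-- The Haar probability measure on `O(N)`. -/
noncomputable def haarProb (N : ℕ) : Measure (Orth N) := Measure.haarMeasure ⊤

/-- The subspace `U (ℝ^n × 0)`, spanned by the first `n` columns of `U`. -/
def rotSub (n : ℕ) {N : ℕ} (U : Orth N) : Submodule ℝ (Euc N) :=
  Submodule.span ℝ {v | ∃ j : Fin N, (j : ℕ) < n ∧
    v = WithLp.toLp 2 (fun i => (U : Matrix (Fin N) (Fin N) ℝ) i j)}

section

variable {E : Type} [NormedAddCommGroup E] [InnerProductSpace ℝ E] [FiniteDimensional ℝ E]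

/-- The orthogonal projection of `K` onto `F`, as a subset of `F`. -/
def projSet (F : Submodule ℝ E) (K : Set E) : Set F := F.orthogonalProjectionOnto '' K

variable [MeasurableSpace E] [BorelSpace E]

/-- Lebesgue volume in a finite-dimensional real inner product space, as a real number. -/
noncomputable def vol (K : Set E) : ℝ := (volume K).toReal

/-- The volume, inside `F`, of the orthogonal projection of `K` onto `F`. -/
noncomputable def projVol (F : Submodule ℝ E) (K : Set E) : ℝ := vol (projSet F K)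

/-- A convex body of volume one with barycenter at the origin. -/
def IsCentredBody (K : Set E) : Prop :=
  IsCompact K ∧ Convex ℝ K ∧ (interior K).Nonempty ∧ volume K = 1 ∧ (∫ x in K, x) = 0

/-- The centred closed Euclidean ball of volume one. -/
def IsUnitVolBall (D : Set E) : Prop :=
  ∃ r : ℝ, 0 < r ∧ D = Metric.closedBall 0 r ∧ volume D = 1

end

/-- The functional `Φ_[n](K)`. -/
noncomputable def Phi (n : ℕ) {N : ℕ} (K : Set (Euc N)) : ℝ :=
  (∫ U, projVol (rotSub n U) K ^ (-(N : ℝ)) ∂haarProb N) ^ (-1 / ((n : ℝ) * N))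

end Pool.Agent.Lib.MP_ed9c69_gt
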