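import Pool.Agent.Lib.MP_ed9c69_gt.Defs
import Pool.Agent.Lib.MP_ed9c69_gt.Count

open MeasureTheory Matrix
open scoped ENNReal

namespace Pool.Agent.Lib.MP_ed9c69_gt

instance instIsHaar (N : ℕ) : Measure.IsHaarMeasure (haarProb N) :=
  Measure.isHaarMeasure_haarMeasure _

instance instIsProb (N : ℕ) : IsProbabilityMeasure (haarProb N) :=
  ⟨by simpa [haarProb] using Measure.haarMeasure_self (K₀ := (⊤ : TopologicalSpace.PositiveCompacts (Orth N)))⟩

instance instRightInv (N : ℕ) : Measure.IsMulRightInvariant (haarProb N) := by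
  refine ⟨fun g => ?_⟩
  have : IsProbabilityMeasure (Measure.map (fun x => x * g) (haarProb N)) :=
    Measure.isProbabilityMeasure_map (measurable_mul_const g).aemeasurable
  exact Measure.isHaarMeasure_eq_of_isProbabilityMeasure _ _

/-- the first `n` columns of a square matrix, as a list of rows -/
def firstCols {N n : ℕ} (hn : n ≤ N) (A : Matrix (Fin N) (Fin N) ℝ) : Fin N → Fin n → ℝ :=
  fun i j => A i (Fin.castLE hn j)

/-- left multiplication by a square matrix -/
def lmul {N n : ℕ} (U : Matrix (Fin N) (Fin N) ℝ) (G : Fin N → Fin n → ℝ) : Fin N → Fin n → ℝ :=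
  fun i j => (U * Matrix.of G) i j

lemma abs_det_orth {N : ℕ} (U : Orth N) : |(U : Matrix (Fin N) (Fin N) ℝ).det| = 1 := by
  have h := (Matrix.mem_orthogonalGroup_iff (Fin N) ℝ).mp U.2
  have h2 := congrArg Matrix.det h
  rw [Matrix.det_mul, Matrix.det_transpose, Matrix.det_one] at h2
  have h3 : |(U : Matrix (Fin N) (Fin N) ℝ).det| ^ 2 = 1 := by rw [sq_abs, sq]; exact h2
  have h4 := abs_nonneg (U : Matrix (Fin N) (Fin N) ℝ).det
  nlinarith

lemma measurePreserving_lmul {N n : ℕ} (U : Orth N) :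
    MeasurePreserving (lmul (n := n) (U : Matrix (Fin N) (Fin N) ℝ)) volume volume := by
  have : Measure.IsAddHaarMeasure (volume : Measure (Fin N → Fin n → ℝ)) :=
    Measure.pi.isAddHaarMeasure _
  let e : (Fin n → Fin N → ℝ) ≃ₗ[ℝ] (Fin N → Fin n → ℝ) :=
    { toFun := fun A i j => A j i
      invFun := fun A j i => A i j
      map_add' := fun _ _ => rfl
      map_smul' := fun _ _ => rfl
      left_inv := fun _ => rfl
      right_inv := fun _ => rfl }
  let f : (Fin n → Fin N → ℝ) →ₗ[ℝ] (Fin n → Fin N → ℝ) :=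
    LinearMap.pi fun j => (Matrix.toLin' (U : Matrix (Fin N) (Fin N) ℝ)) ∘ₗ LinearMap.proj j
  let L : (Fin N → Fin n → ℝ) →ₗ[ℝ] (Fin N → Fin n → ℝ) := e.toLinearMap ∘ₗ f ∘ₗ e.symm.toLinearMap
  have hL : (L : (Fin N → Fin n → ℝ) → (Fin N → Fin n → ℝ)) =
      lmul (n := n) (U : Matrix (Fin N) (Fin N) ℝ) := by
    ext G i j
    simp [L, e, f, lmul, Matrix.mul_apply, Matrix.mulVec, dotProduct]
  have hdet : |LinearMap.det L| = 1 := by
    simp only [L]
    rw [LinearMap.det_conj, LinearMap.det_pi]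
    simp [abs_pow, abs_det_orth]
  have hne : LinearMap.det L ≠ 0 := by
    intro h; rw [h] at hdet; simp at hdet
  refine ⟨?_, ?_⟩
  · rw [← hL]; exact L.continuous_of_finiteDimensional.measurable
  · rw [← hL, Measure.map_linearMap_addHaar_eq_smul_addHaar _ hne, abs_inv, hdet]
    simp

lemma continuous_lmul {N n : ℕ} : Continuous (fun p : Orth N × (Fin N → Fin n → ℝ) =>
    lmul (p.1 : Matrix (Fin N) (Fin N) ℝ) p.2) := by
  refine continuous_pi fun i => continuous_pi fun j => ?_
  simp only [lmul, Matrix.mul_apply, Matrix.of_apply]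
  refine continuous_finsetSum _ fun k _ => Continuous.mul ?_ (by fun_prop)
  have h1 : Continuous (fun p : Orth N × (Fin N → Fin n → ℝ) =>
      (p.1 : Matrix (Fin N) (Fin N) ℝ)) := continuous_subtype_val.comp continuous_fst
  exact h1.matrix_elem i k

lemma continuous_firstCols {N n : ℕ} (hn : n ≤ N) :
    Continuous (fun U : Orth N => firstCols hn (U : Matrix (Fin N) (Fin N) ℝ)) := by
  refine continuous_pi fun i => continuous_pi fun j => ?_
  exact (continuous_subtype_val (p := fun A => A ∈ Matrix.orthogonalGroup (Fin N) ℝ)).matrix_elem i _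

lemma row_sq_sum {N : ℕ} (U : Orth N) (i : Fin N) :
    ∑ k, (U : Matrix (Fin N) (Fin N) ℝ) i k ^ 2 = 1 := by
  have h := (Matrix.mem_orthogonalGroup_iff (Fin N) ℝ).mp U.2
  have h2 := congrFun (congrFun h i) i
  simpa [Matrix.mul_apply, sq] using h2

lemma col_inner {N : ℕ} (U : Orth N) (a b : Fin N) :
    ∑ k, (U : Matrix (Fin N) (Fin N) ℝ) k a * (U : Matrix (Fin N) (Fin N) ℝ) k b =
      if a = b then 1 else 0 := by
  have h := (Matrix.mem_orthogonalGroup_iff' (Fin N) ℝ).mp U.2
  have h2 := congrFun (congrFun h a) b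
  simpa [Matrix.mul_apply, Matrix.one_apply] using h2

lemma lmul_mem_Box {N n : ℕ} (U : Orth N) {G : Fin N → Fin n → ℝ} (hG : G ∈ Box N n 1) :
    lmul (U : Matrix (Fin N) (Fin N) ℝ) G ∈ Box N n (Real.sqrt N) := by
  intro i _ j _
  rw [Set.mem_Icc, ← abs_le]
  apply Real.abs_le_sqrt
  simp only [lmul, Matrix.mul_apply, Matrix.of_apply]
  refine (Finset.sum_mul_sq_le_sq_mul_sq _ _ _).trans ?_
  rw [row_sq_sum, one_mul]
  calc ∑ k, G k j ^ 2 ≤ ∑ _k : Fin N, (1 : ℝ) := by
        refine Finset.sum_le_sum fun k _ => ?_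
        have := hG k (Set.mem_univ _) j (Set.mem_univ _)
        rw [sq_le_one_iff_abs_le_one, abs_le]
        exact this
    _ = N := by simp

/-- QR decomposition with Hadamard's bound -/
lemma exists_QR {N n : ℕ} (hn : n ≤ N) {G : Fin N → Fin n → ℝ} (hG : G ∈ Box N n 1) :
    ∃ (V : Orth N) (S : Matrix (Fin n) (Fin n) ℝ),
      Matrix.of G = Matrix.of (firstCols hn (V : Matrix (Fin N) (Fin N) ℝ)) * S ∧
      |S.det| ≤ Real.sqrt N ^ n := by
  classical
  let f : Fin N → Euc N := fun j =>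
    if h : (j : ℕ) < n then WithLp.toLp 2 (fun i => G i ⟨j, h⟩) else 0
  have hdim : Module.finrank ℝ (Euc N) = Fintype.card (Fin N) := by simp
  let b := InnerProductSpace.gramSchmidtOrthonormalBasis hdim f
  have hf : ∀ j : Fin n, f (Fin.castLE hn j) = WithLp.toLp 2 (fun i => G i j) := by
    intro j
    simp [f]
  have htri : ∀ i j : Fin N, i < j → inner ℝ (b j) (f i) = 0 := fun i j hij =>
    InnerProductSpace.gramSchmidtOrthonormalBasis_inv_triangular hdim f hij
  let V : Orth N := ⟨(EuclideanSpace.basisFun (Fin N) ℝ).toBasis.toMatrix b,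
    OrthonormalBasis.toMatrix_orthonormalBasis_mem_orthogonal _ _⟩
  have hV : ∀ i k, (V : Matrix (Fin N) (Fin N) ℝ) i k = b k i := by
    intro i k
    simp [V, Module.Basis.toMatrix_apply]
  let S : Matrix (Fin n) (Fin n) ℝ :=
    fun k j => inner ℝ (b (Fin.castLE hn k)) (f (Fin.castLE hn j))
  refine ⟨V, S, ?_, ?_⟩
  · ext i j
    have h1 := b.sum_repr' (f (Fin.castLE hn j))
    have h2 : G i j = ∑ k : Fin N, inner ℝ (b k) (f (Fin.castLE hn j)) * b k i := by
      have h3 := congrArg (fun v : Euc N => v i) h1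
      simp only [WithLp.ofLp_sum, Finset.sum_apply, WithLp.ofLp_smul, Pi.smul_apply,
        smul_eq_mul] at h3
      rw [h3, hf]
    rw [Matrix.of_apply, h2, Matrix.mul_apply]
    simp only [Matrix.of_apply, firstCols, hV, S]
    symm
    refine Finset.sum_of_injOn (Fin.castLE hn) (Fin.castLE_injective hn).injOn
      (fun _ _ => Finset.mem_coe.mpr (Finset.mem_univ _)) ?_ (fun k _ => mul_comm _ _)
    intro k _ hk
    rw [htri, zero_mul]
    by_contra hlt
    apply hk
    have hkn : (k : ℕ) < n := by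
      have : (k : ℕ) ≤ j := by simpa [Fin.le_def] using not_lt.mp hlt
      omega
    exact ⟨⟨k, hkn⟩, Finset.mem_coe.mpr (Finset.mem_univ _), rfl⟩
  · have hup : S.IsUpperTriangular := by
      intro k j hjk
      exact htri _ _ hjk
    rw [Matrix.det_of_isUpperTriangular hup, Finset.abs_prod]
    calc ∏ j, |S j j| ≤ ∏ _j : Fin n, Real.sqrt N := by
          refine Finset.prod_le_prod (fun _ _ => abs_nonneg _) fun j _ => ?_
          refine (abs_real_inner_le_norm _ _).trans ?_
          rw [b.orthonormal.1, one_mul, hf, EuclideanSpace.norm_eq]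
          apply Real.sqrt_le_sqrt
          calc ∑ k, ‖G k j‖ ^ 2 ≤ ∑ _k : Fin N, (1 : ℝ) := by
                refine Finset.sum_le_sum fun k _ => ?_
                have := hG k (Set.mem_univ _) j (Set.mem_univ _)
                rw [Real.norm_eq_abs, sq_abs, sq_le_one_iff_abs_le_one, abs_le]
                exact this
            _ = N := by simp
      _ = _ := by simp

/-- the projected cross-polytope contains a small cube -/
lemma vol_firstCols_ge {N n : ℕ} (hn : n ≤ N) (hn0 : 0 < n) (U : Orth N) :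
    ENNReal.ofReal (2 * (1 / (n * Real.sqrt N))) ^ n ≤
      volume (img (B1 N 1) (firstCols hn (U : Matrix (Fin N) (Fin N) ℝ))) := by
  have hN : (0 : ℝ) < N := by exact_mod_cast (by omega : 0 < N)
  have hnr : (1 : ℝ) ≤ n := by exact_mod_cast hn0
  have hs : 0 < Real.sqrt N := Real.sqrt_pos.mpr hN
  set ρ : ℝ := 1 / (n * Real.sqrt N) with hρ
  have hρ0 : 0 < ρ := by positivity
  have hvol : volume (Set.pi Set.univ fun _ : Fin n => Set.Icc (-ρ) ρ) =
      ENNReal.ofReal (2 * ρ) ^ n := by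
    simp only [volume_pi_pi, Real.volume_Icc, Finset.prod_const, Finset.card_univ,
      Fintype.card_fin]
    congr 2
    ring
  rw [← hvol]
  refine measure_mono fun y hy => ?_
  set W := firstCols hn (U : Matrix (Fin N) (Fin N) ℝ) with hW
  have hWW : ∀ a b : Fin n, ∑ i, W i a * W i b = if a = b then 1 else 0 := by
    intro a b
    simp only [hW, firstCols]
    rw [col_inner]
    simp [(Fin.castLE_injective hn).eq_iff]
  refine ⟨fun i => ∑ a, W i a * y a, ?_, ?_⟩
  · have h1 : ∑ i, (∑ a, W i a * y a) ^ 2 = ∑ a, y a ^ 2 := by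
      calc ∑ i, (∑ a, W i a * y a) ^ 2 = ∑ i, ∑ a, ∑ b, (W i a * W i b) * (y a * y b) := by
            refine Finset.sum_congr rfl fun i _ => ?_
            rw [sq, Finset.sum_mul_sum]
            refine Finset.sum_congr rfl fun a _ => Finset.sum_congr rfl fun b _ => by ring
        _ = ∑ a, ∑ b, (∑ i, W i a * W i b) * (y a * y b) := by
            rw [Finset.sum_comm]
            refine Finset.sum_congr rfl fun a _ => ?_
            rw [Finset.sum_comm]
            refine Finset.sum_congr rfl fun b _ => ?_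
            rw [Finset.sum_mul]
        _ = ∑ a, y a ^ 2 := by simp [hWW, sq]
    have h2 : ∑ a, y a ^ 2 ≤ n * ρ ^ 2 := by
      calc ∑ a, y a ^ 2 ≤ ∑ _a : Fin n, ρ ^ 2 := by
            refine Finset.sum_le_sum fun a _ => ?_
            have := hy a (Set.mem_univ _)
            exact sq_le_sq' this.1 this.2
        _ = _ := by simp
    have h3 := sq_sum_le_card_mul_sum_sq (s := (Finset.univ : Finset (Fin N)))
      (f := fun i => |∑ a, W i a * y a|)
    simp only [sq_abs, Finset.card_univ, Fintype.card_fin, h1] at h3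
    have h4 : (N : ℝ) * (n * ρ ^ 2) ≤ 1 := by
      have h5 : (N : ℝ) * (n * ρ ^ 2) = 1 / n := by
        rw [hρ, div_pow, mul_pow, Real.sq_sqrt hN.le]
        field_simp
      rw [h5, div_le_one (by linarith)]
      exact hnr
    have h6 : (∑ i, |∑ a, W i a * y a|) ^ 2 ≤ 1 := by
      refine h3.trans (le_trans ?_ h4)
      gcongr
    exact (abs_le.mp ((sq_le_one_iff_abs_le_one _).mp h6)).2
  · ext b
    simp only [Matrix.vecMul, dotProduct, Matrix.of_apply]
    calc ∑ i, (∑ a, W i a * y a) * W i b = ∑ a, (∑ i, W i a * W i b) * y a := by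
          simp only [Finset.sum_mul]
          rw [Finset.sum_comm]
          refine Finset.sum_congr rfl fun a _ => Finset.sum_congr rfl fun i _ => by ring
      _ = y b := by simp [hWW]

/-- The main estimate on the negative moment. -/
lemma moment_bound {n : ℕ} (hn0 : 0 < n) : ∃ A : ℕ, ∀ (N : ℕ) (hn : n ≤ N),
    (∫⁻ U : Orth N, (volume (img (B1 N 1)
        (firstCols hn (U : Matrix (Fin N) (Fin N) ℝ))))⁻¹ ^ N ∂haarProb N) * 2 ^ (n * N) ≤
      ENNReal.ofReal (Real.sqrt N ^ n) ^ N * ((N ^ n * A : ℕ) *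
        (ENNReal.ofReal (2 * Real.sqrt N) ^ (n * n) *
          ((2 ^ n) ^ (N - n) * (ENNReal.ofReal (2 / n) ^ n)⁻¹ ^ n))) := by
  obtain ⟨A, hA⟩ := count_bound hn0
  refine ⟨A, fun N hn => ?_⟩
  have hN : (0 : ℝ) < N := by exact_mod_cast (by omega : 0 < N)
  have hnr : (0 : ℝ) < n := by exact_mod_cast hn0
  have hs : 0 < Real.sqrt N := Real.sqrt_pos.mpr hN
  set Δ : ℝ≥0∞ := ENNReal.ofReal (Real.sqrt N ^ n) with hΔ
  have hΔ0 : Δ ≠ 0 := by
    rw [hΔ]; exact (ENNReal.ofReal_pos.mpr (by positivity)).ne'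
  have hΔt : Δ ≠ ⊤ := ENNReal.ofReal_ne_top
  set m' : ℝ≥0∞ := ENNReal.ofReal (2 / n) ^ n with hm'
  let φ : Orth N → ℝ≥0∞ := fun U =>
    (volume (img (B1 N 1) (firstCols hn (U : Matrix (Fin N) (Fin N) ℝ))))⁻¹ ^ N
  let ψ : (Fin N → Fin n → ℝ) → ℝ≥0∞ := fun G =>
    Set.indicator (Box N n (Real.sqrt N)) (fun G => (max (volume (img (B1 N 1) G)) m')⁻¹ ^ N) G
  have hψ : Measurable ψ := by
    refine Measurable.indicator ?_ (measurableSet_Box _ _ _)
    exact ((measurable_vol_img (isCompact_B1 N 1)).max measurable_const).inv.pow_const _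
  have key : ∀ G ∈ Box N n 1, ∫⁻ U, φ U ∂haarProb N ≤
      ∫⁻ U : Orth N, Δ ^ N * ψ (lmul (U : Matrix (Fin N) (Fin N) ℝ) G) ∂haarProb N := by
    intro G hG
    obtain ⟨V, S, hGVS, hS⟩ := exists_QR hn hG
    rw [← lintegral_mul_right_eq_self φ V]
    refine lintegral_mono fun U => ?_
    have h1 : lmul (U : Matrix (Fin N) (Fin N) ℝ) G = fun i j =>
        (Matrix.of (firstCols hn ((U * V : Orth N) : Matrix (Fin N) (Fin N) ℝ)) * S) i j := by
      ext i j
      simp only [lmul]
      rw [hGVS, ← Matrix.mul_assoc]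
      congr 2
    have h2 : volume (img (B1 N 1) (lmul (U : Matrix (Fin N) (Fin N) ℝ) G)) ≤
        Δ * volume (img (B1 N 1) (firstCols hn ((U * V : Orth N) : Matrix (Fin N) (Fin N) ℝ))) := by
      rw [h1, vol_img_mul]
      gcongr
      exact ENNReal.ofReal_le_ofReal hS
    have h3 : m' ≤
        Δ * volume (img (B1 N 1) (firstCols hn ((U * V : Orth N) : Matrix (Fin N) (Fin N) ℝ))) := by
      refine le_trans (le_of_eq ?_) (mul_le_mul_right (vol_firstCols_ge hn hn0 (U * V)) Δ)
      rw [hΔ, hm', ENNReal.ofReal_pow hs.le, ← mul_pow, ← ENNReal.ofReal_mul hs.le]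
      congr 2
      field_simp
    simp only [φ, ψ]
    rw [Set.indicator_of_mem (lmul_mem_Box U hG), ← mul_pow]
    gcongr
    have h4 := ENNReal.inv_le_inv.mpr (max_le h2 h3)
    rw [ENNReal.mul_inv (Or.inl hΔ0) (Or.inl hΔt)] at h4
    calc _ = Δ * (Δ⁻¹ * (volume (img (B1 N 1)
          (firstCols hn ((U * V : Orth N) : Matrix (Fin N) (Fin N) ℝ))))⁻¹) := by
          rw [← mul_assoc, ENNReal.mul_inv_cancel hΔ0 hΔt, one_mul]
      _ ≤ _ := by gcongr
  have hmeas : Measurable (Function.uncurry fun (G : Fin N → Fin n → ℝ) (U : Orth N) =>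
      Δ ^ N * ψ (lmul (U : Matrix (Fin N) (Fin N) ℝ) G)) := by
    have h1 : Continuous (fun p : (Fin N → Fin n → ℝ) × Orth N =>
        lmul (p.2 : Matrix (Fin N) (Fin N) ℝ) p.1) := continuous_lmul.comp continuous_swap
    exact (hψ.comp h1.measurable).const_mul _
  calc (∫⁻ U, φ U ∂haarProb N) * 2 ^ (n * N)
      = ∫⁻ G, Set.indicator (Box N n 1) (fun _ => ∫⁻ U, φ U ∂haarProb N) G := by
        rw [lintegral_indicator_const (measurableSet_Box _ _ _), volume_Box]
        simp
    _ ≤ ∫⁻ G, ∫⁻ U : Orth N, Δ ^ N * ψ (lmul (U : Matrix (Fin N) (Fin N) ℝ) G) ∂haarProb N := by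
        refine lintegral_mono fun G => ?_
        by_cases hG : G ∈ Box N n 1
        · rw [Set.indicator_of_mem hG]; exact key G hG
        · rw [Set.indicator_of_notMem hG]; exact zero_le
    _ = ∫⁻ U : Orth N, ∫⁻ G, Δ ^ N * ψ (lmul (U : Matrix (Fin N) (Fin N) ℝ) G) ∂volume
          ∂haarProb N := lintegral_lintegral_swap hmeas.aemeasurable
    _ = ∫⁻ _U : Orth N, Δ ^ N * ∫⁻ G, ψ G ∂volume ∂haarProb N := by
        refine lintegral_congr fun U => ?_
        rw [lintegral_const_mul' _ _ (ENNReal.pow_ne_top hΔt),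
          (measurePreserving_lmul U).lintegral_comp hψ]
    _ = Δ ^ N * ∫⁻ G, ψ G := by simp
    _ ≤ _ := by
        gcongr
        exact hA N hn _ _

end Pool.Agent.Lib.MP_ed9c69_gt
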