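import Mathlib

open MeasureTheory Matrix
open scoped Pointwise

namespace Pool.Agent.Lib.MP_ed9c69_gt

/-- the closed `ℓ¹` ball of radius `r` -/
def B1 (N : ℕ) (r : ℝ) : Set (Fin N → ℝ) := {x | ∑ i, |x i| ≤ r}

/-- combinations of the rows of `G` with coefficient vectors in `T` -/
def img {N n : ℕ} (T : Set (Fin N → ℝ)) (G : Fin N → Fin n → ℝ) : Set (Fin n → ℝ) :=
  (fun x => x ᵥ* Matrix.of G) '' T

lemma isCompact_B1 (N : ℕ) (r : ℝ) : IsCompact (B1 N r) := by
  have hK : IsCompact (Set.pi Set.univ (fun _ : Fin N => Set.Icc (-r) r)) :=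
    isCompact_univ_pi fun _ => isCompact_Icc
  refine hK.of_isClosed_subset ?_ ?_
  · exact isClosed_le (by fun_prop) continuous_const
  · intro x hx i _
    have h1 : |x i| ≤ ∑ j, |x j| :=
      Finset.single_le_sum (f := fun j => |x j|) (fun j _ => abs_nonneg _) (Finset.mem_univ i)
    have h2 : |x i| ≤ r := h1.trans hx
    exact abs_le.mp h2

lemma continuous_vecMul_pair {N n : ℕ} :
    Continuous (fun q : (Fin N → Fin n → ℝ) × (Fin N → ℝ) => q.2 ᵥ* Matrix.of q.1) := by
  refine continuous_pi fun j => ?_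
  simp only [Matrix.vecMul, dotProduct, Matrix.of_apply]
  fun_prop

lemma isClosed_mem_img {N n : ℕ} {T : Set (Fin N → ℝ)} (hT : IsCompact T) :
    IsClosed {p : (Fin N → Fin n → ℝ) × (Fin n → ℝ) | p.2 ∈ img T p.1} := by
  have : CompactSpace T := isCompact_iff_compactSpace.mp hT
  have h1 : IsClosed {q : ((Fin N → Fin n → ℝ) × (Fin n → ℝ)) × T |
      (q.2 : Fin N → ℝ) ᵥ* Matrix.of q.1.1 = q.1.2} := by
    refine isClosed_eq ?_ (by fun_prop)
    exact continuous_vecMul_pair.comp (f := fun q : ((Fin N → Fin n → ℝ) × (Fin n → ℝ)) × T =>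
      (q.1.1, (q.2 : Fin N → ℝ))) (by fun_prop)
  have h2 := isClosedMap_fst_of_compactSpace _ h1
  convert h2 using 1
  ext p
  constructor
  · rintro ⟨x, hx, hxy⟩
    exact ⟨(p, ⟨x, hx⟩), hxy, rfl⟩
  · rintro ⟨q, hq, rfl⟩
    exact ⟨q.2, q.2.2, hq⟩

lemma isCompact_img {N n : ℕ} {T : Set (Fin N → ℝ)} (hT : IsCompact T)
    (G : Fin N → Fin n → ℝ) : IsCompact (img T G) := by
  refine hT.image ?_
  exact continuous_vecMul_pair.comp (f := fun x : Fin N → ℝ => (G, x)) (by fun_prop)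

lemma measurable_vol_img {N n : ℕ} {T : Set (Fin N → ℝ)} (hT : IsCompact T) :
    Measurable (fun G : Fin N → Fin n → ℝ => volume (img T G)) := by
  have h := measurable_measure_prodMk_left (ν := (volume : Measure (Fin n → ℝ)))
    (isClosed_mem_img (n := n) hT).measurableSet
  exact h

lemma img_B1_smul {N n : ℕ} (G : Fin N → Fin n → ℝ) {r : ℝ} (hr : 0 < r) :
    img (B1 N r) G = r • img (B1 N 1) G := by
  ext y
  constructor
  · rintro ⟨x, hx, rfl⟩
    refine ⟨(r⁻¹ • x) ᵥ* Matrix.of G, ⟨r⁻¹ • x, ?_, rfl⟩, ?_⟩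
    · simp only [B1, Set.mem_ofPred_eq, Pi.smul_apply, smul_eq_mul, abs_mul, abs_inv,
        abs_of_pos hr, ← Finset.mul_sum] at hx ⊢
      rw [inv_mul_le_iff₀ hr]
      simpa using hx
    · simp only [Matrix.smul_vecMul, smul_smul, mul_inv_cancel₀ hr.ne', one_smul]
  · rintro ⟨z, ⟨x, hx, rfl⟩, rfl⟩
    refine ⟨r • x, ?_, ?_⟩
    · simp only [B1, Set.mem_ofPred_eq, Pi.smul_apply, smul_eq_mul, abs_mul,
        abs_of_pos hr, ← Finset.mul_sum] at hx ⊢
      nlinarith
    · simp only [Matrix.smul_vecMul]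

lemma vol_img_B1 {N n : ℕ} (G : Fin N → Fin n → ℝ) {r : ℝ} (hr : 0 < r) :
    volume (img (B1 N r) G) = ENNReal.ofReal (r ^ n) * volume (img (B1 N 1) G) := by
  rw [img_B1_smul G hr, Measure.addHaar_smul_of_nonneg _ hr.le]
  simp

/-- multiplying on the right by a square matrix scales the volume by the determinant -/
lemma vol_img_mul {N n : ℕ} (T : Set (Fin N → ℝ)) (G : Fin N → Fin n → ℝ)
    (S : Matrix (Fin n) (Fin n) ℝ) :
    volume (img T (fun i j => (Matrix.of G * S) i j)) =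
      ENNReal.ofReal |S.det| * volume (img T G) := by
  have h : img T (fun i j => (Matrix.of G * S) i j) = (Matrix.toLin' Sᵀ) '' img T G := by
    simp only [img, Set.image_image]
    refine Set.image_congr fun x _ => ?_
    rw [Matrix.toLin'_apply, Matrix.mulVec_transpose, Matrix.vecMul_vecMul]
    rfl
  rw [h, Measure.addHaar_image_linearMap, LinearMap.det_toLin', Matrix.det_transpose]

end Pool.Agent.Lib.MP_ed9c69_gt
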