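import Pool.Agent.Lib.MP_ed9c69_gt.Count

open MeasureTheory Matrix
open scoped ENNReal Pointwise

namespace Pool.Agent.Lib.MP_ed9c69_gt

lemma img_add {N n : ℕ} (G : Fin N → Fin n → ℝ) {r s : ℝ} {x y : Fin n → ℝ}
    (hx : x ∈ img (B1 N r) G) (hy : y ∈ img (B1 N s) G) : x + y ∈ img (B1 N (r + s)) G := by
  obtain ⟨a, ha, rfl⟩ := hx
  obtain ⟨b, hb, rfl⟩ := hy
  refine ⟨a + b, ?_, Matrix.add_vecMul _ _ _⟩
  simp only [B1, Set.mem_ofPred_eq] at ha hb ⊢
  refine le_trans (Finset.sum_le_sum fun i _ => abs_add_le (a i) (b i)) ?_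
  rw [Finset.sum_add_distrib]
  exact add_le_add ha hb

lemma img_neg {N n : ℕ} (G : Fin N → Fin n → ℝ) {r : ℝ} {x : Fin n → ℝ}
    (hx : x ∈ img (B1 N r) G) : -x ∈ img (B1 N r) G := by
  obtain ⟨a, ha, rfl⟩ := hx
  exact ⟨-a, by simpa [B1] using ha, Matrix.neg_vecMul _ _⟩

lemma row_mem_img {N n : ℕ} (G : Fin N → Fin n → ℝ) (i : Fin N) {r : ℝ} (hr : 0 ≤ r) :
    r • G i ∈ img (B1 N r) G := by
  refine ⟨Pi.single i r, ?_, ?_⟩
  · simp only [B1, Set.mem_ofPred_eq]
    rw [Finset.sum_eq_single i (fun j _ hj => by simp [hj]) (by simp)]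
    simp [abs_of_nonneg hr]
  · ext j
    simp [Matrix.vecMul]

lemma abs_map_le {N n : ℕ} (G : Fin N → Fin n → ℝ) (f : (Fin n → ℝ) →L[ℝ] ℝ) {r μ : ℝ}
    (hμ0 : 0 ≤ μ) (hμ : ∀ i, |f (G i)| ≤ μ) {x : Fin n → ℝ} (hx : x ∈ img (B1 N r) G) :
    |f x| ≤ r * μ := by
  obtain ⟨a, ha, rfl⟩ := hx
  simp only [Matrix.vecMul_eq_sum, map_sum, map_smul, smul_eq_mul]
  refine (Finset.abs_sum_le_sum_abs _ _).trans (le_trans (Finset.sum_le_sum fun i _ => ?_)
    ((Finset.sum_mul _ _ _).ge.trans (mul_le_mul_of_nonneg_right ha hμ0)))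
  rw [abs_mul]
  exact mul_le_mul_of_nonneg_left (hμ i) (abs_nonneg _)

lemma convex_img {N n : ℕ} (G : Fin N → Fin n → ℝ) (r : ℝ) : Convex ℝ (img (B1 N r) G) := by
  rintro _ ⟨x, hx, rfl⟩ _ ⟨y, hy, rfl⟩ a b ha hb hab
  refine ⟨a • x + b • y, ?_, by simp only [Matrix.add_vecMul, Matrix.smul_vecMul]⟩
  simp only [B1, Set.mem_ofPred_eq] at hx hy ⊢
  calc ∑ i, |(a • x + b • y) i| ≤ ∑ i, (a * |x i| + b * |y i|) := by
        refine Finset.sum_le_sum fun i _ => (abs_add_le _ _).trans (le_of_eq ?_)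
        simp [abs_mul, abs_of_nonneg ha, abs_of_nonneg hb]
    _ = a * ∑ i, |x i| + b * ∑ i, |y i| := by
        rw [Finset.sum_add_distrib, Finset.mul_sum, Finset.mul_sum]
    _ ≤ a * r + b * r := by gcongr
    _ = r := by rw [← add_mul, hab, one_mul]

lemma img_comp_subset {N M n : ℕ} (G : Fin N → Fin n → ℝ) (I : Fin M → Fin N) :
    img (B1 M 1) (G ∘ I) ⊆ img (B1 N 1) G := by
  rintro _ ⟨a, ha, rfl⟩
  have h : ∀ s : Finset (Fin M), ∑ j ∈ s, a j • G (I j) ∈ img (B1 N (∑ j ∈ s, |a j|)) G := by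
    intro s
    induction s using Finset.induction_on with
    | empty => exact ⟨0, by simp [B1], by simp⟩
    | insert j s hj ih =>
      rw [Finset.sum_insert hj, Finset.sum_insert hj]
      refine img_add G ?_ ih
      rcases le_total 0 (a j) with h | h
      · rw [abs_of_nonneg h]
        exact row_mem_img G _ h
      · rw [abs_of_nonpos h, ← neg_neg (a j • G (I j)), ← neg_smul]
        exact img_neg G (row_mem_img G _ (neg_nonneg.2 h))
  obtain ⟨b, hb, e⟩ := h Finset.univ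
  refine ⟨b, le_trans (b := ∑ j, |a j|) hb ha, e.trans ?_⟩
  simp only [Matrix.vecMul_eq_sum]
  rfl

/-- packing in the norm of the polytope -/
lemma card_sep_le {N n : ℕ} (G : Fin N → Fin n → ℝ) (h0 : volume (img (B1 N 1) G) ≠ 0)
    (J : Finset (Fin N)) (hJ : ∀ i ∈ J, ∀ j ∈ J, i ≠ j → G i - G j ∉ img (B1 N (1 / 2)) G) :
    J.card ≤ 5 ^ n := by
  have ht : volume (img (B1 N 1) G) ≠ ⊤ := (isCompact_img (isCompact_B1 N 1) G).measure_lt_top.ne
  have hm : ∀ i, MeasurableSet (G i +ᵥ img (B1 N (1 / 4)) G) := fun i =>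
    ((isCompact_img (isCompact_B1 N _) G).vadd _).measurableSet
  have h1 : volume (⋃ i ∈ J, G i +ᵥ img (B1 N (1 / 4)) G) =
      J.card * volume (img (B1 N (1 / 4)) G) := by
    rw [measure_biUnion_finset ?_ fun i _ => hm i]
    · simp
    intro i hi j hj hij
    refine Set.disjoint_left.2 ?_
    rintro _ ⟨x, hx, rfl⟩ ⟨y, hy, e⟩
    refine hJ i hi j hj hij ?_
    have h2 := img_add G hy (img_neg G hx)
    simp only [vadd_eq_add] at e
    rwa [show y + -x = G i - G j by linear_combination e, show (1 / 4 + 1 / 4 : ℝ) = 1 / 2 by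
      norm_num] at h2
  have h2 : (⋃ i ∈ J, G i +ᵥ img (B1 N (1 / 4)) G) ⊆ img (B1 N (5 / 4)) G := by
    refine Set.iUnion₂_subset fun i _ => ?_
    rintro _ ⟨x, hx, rfl⟩
    have h2 := img_add G (row_mem_img G i zero_le_one) hx
    rwa [one_smul, show (1 + 1 / 4 : ℝ) = 5 / 4 by norm_num] at h2
  have h3 := h1.ge.trans (measure_mono h2)
  rw [vol_img_B1 G (r := 1 / 4) (by norm_num), vol_img_B1 G (r := 5 / 4) (by norm_num),
    ← mul_assoc, ENNReal.mul_le_mul_iff_left h0 ht, ← ENNReal.ofReal_natCast,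
    ← ENNReal.ofReal_mul (by positivity), ENNReal.ofReal_le_ofReal_iff (by positivity),
    show (5 / 4 : ℝ) = 5 * (1 / 4) by norm_num, mul_pow] at h3
  exact_mod_cast le_of_mul_le_mul_right h3 (by positivity)

/-- few rows span the polytope up to a factor two -/
lemma exists_net_rows {N n M : ℕ} (hM : 5 ^ n ≤ M) (hN : M ≤ N) (G : Fin N → Fin n → ℝ)
    (h0 : volume (img (B1 N 1) G) ≠ 0) :
    ∃ I : Fin M → Fin N, Function.Injective I ∧ ∀ i, G i ∈ img (B1 M 2) (G ∘ I) := by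
  classical
  obtain ⟨J, hJ, hmax⟩ := Finset.exists_max_image (Finset.univ.filter fun J : Finset (Fin N) =>
    ∀ i ∈ J, ∀ j ∈ J, i ≠ j → G i - G j ∉ img (B1 N (1 / 2)) G) Finset.card ⟨∅, by simp⟩
  simp only [Finset.mem_filter, Finset.mem_univ, true_and] at hJ hmax
  have h1 : ∀ i, ∃ j ∈ J, G i - G j ∈ img (B1 N (1 / 2)) G := by
    intro i
    by_contra! h
    have hi : i ∉ J := fun hi => h i hi ⟨0, by simp [B1], by simp⟩
    have h2 := hmax (insert i J) fun a ha b hb hab => by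
      rcases Finset.mem_insert.1 ha with rfl | ha' <;> rcases Finset.mem_insert.1 hb with rfl | hb'
      · exact absurd rfl hab
      · exact h b hb'
      · exact fun e => h a ha' (by simpa using img_neg G e)
      · exact hJ a ha' b hb' hab
    rw [Finset.card_insert_of_notMem hi] at h2
    omega
  obtain ⟨J', h2, -, h3⟩ := Finset.exists_subsuperset_card_eq (Finset.subset_univ J)
    ((card_sep_le G h0 J hJ).trans hM) (by simpa using hN)
  refine ⟨J'.orderEmbOfFin h3, (J'.orderEmbOfFin h3).injective, fun i => ?_⟩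
  by_contra hi
  obtain ⟨f, u, h4, h5⟩ := geometric_hahn_banach_point_closed (convex_img _ _)
    (isCompact_img (isCompact_B1 M 2) _).isClosed hi
  obtain ⟨i₀, -, h6⟩ := Finset.exists_max_image Finset.univ (fun i => |f (G i)|) ⟨i, by simp⟩
  obtain ⟨j, hj, h7⟩ := h1 i₀
  obtain ⟨a, rfl⟩ : j ∈ Set.range (J'.orderEmbOfFin h3) := by simpa using h2 hj
  have h8 := abs_map_le G f (abs_nonneg _) (fun i => h6 i (by simp)) h7
  have h9 := row_mem_img (G ∘ J'.orderEmbOfFin h3) a zero_le_two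
  have a1 := h5 _ h9
  have a2 := h5 _ (img_neg _ h9)
  simp only [map_neg, map_smul, smul_eq_mul, Function.comp_apply, map_sub] at a1 a2 h8
  have a3 := h6 i (by simp)
  have a4 := abs_sub_abs_le_abs_sub (f (G i₀)) (f (G (J'.orderEmbOfFin h3 a)))
  have a5 := neg_abs_le (f (G i))
  rcases abs_cases (f (G (J'.orderEmbOfFin h3 a))) with h | h <;> linarith [h.1]

/-- The counting estimate with an exponential net. -/
lemma count_bound' {n M N : ℕ} (hn : n ≤ N) (hM : 5 ^ n ≤ M) (hN : M ≤ N) (R : ℝ) (m : ℝ≥0∞) :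
    ∫⁻ G : Fin N → Fin n → ℝ,
      Set.indicator (Box N n R) (fun G => (max (volume (img (B1 N 1) G)) m)⁻¹ ^ N) G ≤
      (N ^ M : ℕ) * (ENNReal.ofReal (2 * R) ^ (n * M) * ((2 ^ n) ^ (N - M) * m⁻¹ ^ M)) := by
  classical
  let f : (Fin M → Fin n → ℝ) → ℝ≥0∞ := fun A =>
    Set.indicator (Box M n R) (fun A => (max (volume (img (B1 M 2) A) / 2 ^ n) m)⁻¹ ^ N) A
  have hf : Measurable f := by
    refine Measurable.indicator ?_ (measurableSet_Box _ _ _)
    have := measurable_vol_img (n := n) (isCompact_B1 M 2)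
    exact ((this.div_const _).max measurable_const).inv.pow_const _
  let Ψ : (Fin M → Fin N) → (Fin N → Fin n → ℝ) → ℝ≥0∞ := fun I G =>
    f (G ∘ I) * Set.indicator {G : Fin N → Fin n → ℝ | ∀ i, G i ∈ img (B1 M 2) (G ∘ I)} 1 G
  have hΨ : ∀ I, Measurable (Ψ I) := by
    intro I
    have hc : Continuous (fun G : Fin N → Fin n → ℝ => G ∘ I) := by fun_prop
    refine (hf.comp hc.measurable).mul (measurable_one.indicator ?_)
    rw [Set.ofPred_forall]
    refine MeasurableSet.iInter fun i => ?_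
    exact ((isClosed_mem_img (n := n) (isCompact_B1 M 2)).preimage
      (f := fun G : Fin N → Fin n → ℝ => (G ∘ I, G i)) (by fun_prop)).measurableSet
  let P : Finset (Fin M → Fin N) := Finset.univ.filter Function.Injective
  have hpt : ∀ᵐ G : Fin N → Fin n → ℝ,
      Set.indicator (Box N n R) (fun G => (max (volume (img (B1 N 1) G)) m)⁻¹ ^ N) G ≤
        ∑ p ∈ P, Ψ p G := by
    filter_upwards [ae_det_comp_ne_zero (Fin.castLE hn) (Fin.castLE_injective hn)] with G hG
    by_cases hB : G ∈ Box N n R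
    swap
    · rw [Set.indicator_of_notMem hB]; exact zero_le
    rw [Set.indicator_of_mem hB]
    obtain ⟨I, hI, h1⟩ := exists_net_rows hM hN G (by
      refine (lt_of_lt_of_le ?_ (measure_mono (img_comp_subset G (Fin.castLE hn)))).ne'
      have h2 := vol_img_mul (B1 n 1) (1 : Matrix (Fin n) (Fin n) ℝ) (Matrix.of (G ∘ Fin.castLE hn))
      have h3 : img (B1 n 1) (1 : Matrix (Fin n) (Fin n) ℝ) = B1 n 1 := by
        refine Eq.trans (Set.image_congr fun x _ => ?_) (Set.image_id _)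
        exact Matrix.vecMul_one x
      have h4 : (fun i j => (Matrix.of (1 : Matrix (Fin n) (Fin n) ℝ) *
          Matrix.of (G ∘ Fin.castLE hn)) i j) = G ∘ Fin.castLE hn :=
        Matrix.one_mul (Matrix.of (G ∘ Fin.castLE hn))
      rw [h3, h4] at h2
      rw [h2]
      refine ENNReal.mul_pos (by simpa using hG) (lt_of_lt_of_le (IsOpen.measure_pos volume
        (U := {x : Fin n → ℝ | ∑ i, |x i| < 1}) (isOpen_lt (by fun_prop) continuous_const)
        ⟨0, by simp⟩) (measure_mono fun x hx => le_of_lt (a := ∑ i, |x i|) hx)).ne')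
    refine le_trans ?_ (Finset.single_le_sum (f := fun p => Ψ p G) (fun _ _ => zero_le)
      (Finset.mem_filter.2 ⟨Finset.mem_univ I, hI⟩))
    have h2 : G ∘ I ∈ Box M n R := fun a _ b _ => hB (I a) (Set.mem_univ _) b (Set.mem_univ _)
    have h4 : volume (img (B1 M 2) (G ∘ I)) / 2 ^ n ≤ volume (img (B1 N 1) G) := by
      refine ENNReal.div_le_of_le_mul' ?_
      rw [vol_img_B1 _ two_pos, ENNReal.ofReal_pow (by norm_num), ENNReal.ofReal_ofNat]
      gcongr
      exact img_comp_subset G I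
    simp only [Ψ, f]
    rw [Set.indicator_of_mem (s := {G : Fin N → Fin n → ℝ | ∀ i, G i ∈ img (B1 M 2) (G ∘ I)}) h1,
      Set.indicator_of_mem h2, Pi.one_apply, mul_one]
    gcongr
  have hone : ∀ p ∈ P, ∫⁻ G, Ψ p G ≤
      ENNReal.ofReal (2 * R) ^ (n * M) * ((2 ^ n) ^ (N - M) * m⁻¹ ^ M) := by
    intro p hp
    refine (lintegral_split p (Finset.mem_filter.1 hp).2 f (fun A => img (B1 M 2) A)
      (fun A => (isCompact_img (isCompact_B1 M 2) A).measurableSet)).trans ?_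
    rw [← volume_Box, mul_comm, ← lintegral_indicator_const (measurableSet_Box _ _ _)]
    refine lintegral_mono fun A => ?_
    by_cases hA : A ∈ Box M n R
    · simp only [f]
      rw [Set.indicator_of_mem hA, Set.indicator_of_mem hA]
      have := ennreal_aux (volume (img (B1 M 2) A)) (2 ^ n) m (by simp) (by simp) (N - M) M
      rwa [Nat.sub_add_cancel hN] at this
    · simp only [f]
      rw [Set.indicator_of_notMem hA, zero_mul]
      exact zero_le
  have hcard : P.card ≤ N ^ M := (Finset.card_filter_le _ _).trans (by simp)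
  calc _ ≤ ∫⁻ G, ∑ p ∈ P, Ψ p G := lintegral_mono_ae hpt
    _ = ∑ p ∈ P, ∫⁻ G, Ψ p G := lintegral_finsetSum _ fun p _ => hΨ p
    _ ≤ ∑ _p ∈ P, ENNReal.ofReal (2 * R) ^ (n * M) * ((2 ^ n) ^ (N - M) * m⁻¹ ^ M) :=
        Finset.sum_le_sum hone
    _ ≤ _ := by
        rw [Finset.sum_const, nsmul_eq_mul]
        gcongr

end Pool.Agent.Lib.MP_ed9c69_gt
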