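import Pool.Agent.Lib.MP_ed9c69_gt.Haar

open MeasureTheory Matrix
open scoped ENNReal

namespace Pool.Agent.Lib.MP_ed9c69_gt

lemma exists_basis_rotSub {N n : ℕ} (hn : n ≤ N) (U : Orth N) :
    ∃ b : OrthonormalBasis (Fin n) ℝ (rotSub n U), ∀ j,
      (b j : Euc N) = WithLp.toLp 2 (fun i => (U : Matrix (Fin N) (Fin N) ℝ) i (Fin.castLE hn j)) := by
  let c : Fin n → Euc N := fun j =>
    WithLp.toLp 2 (fun i => (U : Matrix (Fin N) (Fin N) ℝ) i (Fin.castLE hn j))
  have hc : Orthonormal ℝ c := by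
    rw [orthonormal_iff_ite]
    intro a b
    simp only [c, PiLp.inner_apply, RCLike.inner_apply, conj_trivial]
    have := col_inner U (Fin.castLE hn b) (Fin.castLE hn a)
    rw [this]
    simp [(Fin.castLE_injective hn).eq_iff, eq_comm]
  have hset : {v : Euc N | ∃ j : Fin N, (j : ℕ) < n ∧
      v = WithLp.toLp 2 (fun i => (U : Matrix (Fin N) (Fin N) ℝ) i j)} = Set.range c := by
    ext v
    constructor
    · rintro ⟨j, hj, rfl⟩
      exact ⟨⟨j, hj⟩, rfl⟩
    · rintro ⟨j, rfl⟩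
      exact ⟨Fin.castLE hn j, j.2, rfl⟩
  have hF : rotSub n U = Submodule.span ℝ (Set.range c) := by rw [rotSub, hset]
  have hmem : ∀ j, c j ∈ rotSub n U := fun j => by
    rw [hF]; exact Submodule.subset_span ⟨j, rfl⟩
  have hon := hc.codRestrict (rotSub n U) hmem
  refine ⟨OrthonormalBasis.mk hon ?_, fun j => ?_⟩
  · intro x _
    have hx : (x : Euc N) ∈ Submodule.span ℝ (Set.range c) := hF ▸ x.2
    have hmap : Submodule.map (rotSub n U).subtype
        (Submodule.span ℝ (Set.range (Set.codRestrict c (rotSub n U) hmem))) =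
        Submodule.span ℝ (Set.range c) := by
      rw [Submodule.map_span, ← Set.range_comp]
      rfl
    rw [← hmap] at hx
    obtain ⟨y, hy, hyx⟩ := hx
    have : y = x := Subtype.ext hyx
    exact this ▸ hy
  · rw [OrthonormalBasis.coe_mk]
    rfl

lemma volume_proj_eq {N n : ℕ} (hn : n ≤ N) (U : Orth N) (T : Set (Fin N → ℝ)) :
    volume ((rotSub n U).orthogonalProjectionOnto '' (WithLp.ofLp ⁻¹' T)) =
      volume (img T (firstCols hn (U : Matrix (Fin N) (Fin N) ℝ))) := by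
  obtain ⟨b, hb⟩ := exists_basis_rotSub hn U
  let e : rotSub n U ≃ᵐ (Fin n → ℝ) :=
    b.measurableEquiv.trans (MeasurableEquiv.toLp 2 (Fin n → ℝ)).symm
  have he : MeasurePreserving e volume volume :=
    (EuclideanSpace.volume_preserving_symm_measurableEquiv_toLp (Fin n)).comp
      b.measurePreserving_measurableEquiv
  have hex : ∀ x : Euc N, e ((rotSub n U).orthogonalProjectionOnto x) =
      (WithLp.ofLp x) ᵥ* Matrix.of (firstCols hn (U : Matrix (Fin N) (Fin N) ℝ)) := by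
    intro x
    ext j
    have h1 : e ((rotSub n U).orthogonalProjectionOnto x) j =
        b.repr ((rotSub n U).orthogonalProjectionOnto x) j := rfl
    rw [h1, b.repr_apply_apply, Submodule.inner_orthogonalProjectionOnto_eq_of_mem_left, hb]
    simp [PiLp.inner_apply, Matrix.vecMul, dotProduct, firstCols]
  rw [← he.measure_preimage_equiv]
  congr 1
  ext z
  constructor
  · rintro ⟨x, hx, rfl⟩
    exact ⟨WithLp.ofLp x, hx, (hex x).symm⟩
  · rintro ⟨t, ht, htz⟩
    refine ⟨WithLp.toLp 2 t, ht, e.injective ?_⟩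
    rw [hex]
    exact htz

lemma proj_closedBall {N : ℕ} (F : Submodule ℝ (Euc N)) (r : ℝ) :
    F.orthogonalProjectionOnto '' Metric.closedBall (0 : Euc N) r = Metric.closedBall 0 r := by
  ext z
  constructor
  · rintro ⟨x, hx, rfl⟩
    rw [mem_closedBall_zero_iff] at hx ⊢
    exact (F.norm_orthogonalProjectionOnto_apply_le x).trans hx
  · intro hz
    rw [mem_closedBall_zero_iff] at hz
    exact ⟨z, by rwa [mem_closedBall_zero_iff], by simp⟩

lemma Phi_ball {N k : ℕ} (hk : 0 < k) (hn : 2 * k ≤ N) {r : ℝ} (hr : 0 < r) :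
    Phi (2 * k) (Metric.closedBall (0 : Euc N) r) =
      r * (Real.pi ^ k / k.factorial) ^ (1 / ((2 * k : ℕ) : ℝ)) := by
  have hpos : 0 < Real.pi ^ k / k.factorial := by positivity
  have hvol : ∀ U : Orth N, projVol (rotSub (2 * k) U) (Metric.closedBall (0 : Euc N) r) =
      r ^ (2 * k) * (Real.pi ^ k / k.factorial) := by
    intro U
    obtain ⟨b, -⟩ := exists_basis_rotSub hn U
    have hrank : Module.finrank ℝ (rotSub (2 * k) U) = 2 * k := by
      rw [Module.finrank_eq_card_basis b.toBasis, Fintype.card_fin]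
    have : Nontrivial (rotSub (2 * k) U) := Module.nontrivial_of_finrank_pos (R := ℝ) (by omega)
    rw [projVol, vol, projSet, proj_closedBall, InnerProductSpace.volume_closedBall_of_dim_even hrank, hrank,
      ENNReal.toReal_mul, ENNReal.toReal_pow, ENNReal.toReal_ofReal hr.le,
      ENNReal.toReal_ofReal hpos.le]
  have hN : (N : ℝ) ≠ 0 := by exact_mod_cast (by omega : N ≠ 0)
  have hk' : ((2 * k : ℕ) : ℝ) ≠ 0 := by exact_mod_cast (by omega : 2 * k ≠ 0)
  simp only [Phi, hvol, integral_const, probReal_univ, one_smul]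
  rw [← Real.rpow_mul (by positivity)]
  have h1 : -(N : ℝ) * (-1 / (((2 * k : ℕ) : ℝ) * N)) = 1 / ((2 * k : ℕ) : ℝ) := by
    field_simp
  rw [h1, Real.mul_rpow (by positivity) hpos.le, one_div,
    Real.pow_rpow_inv_natCast hr.le (by omega)]

lemma Phi_cross_ge {n : ℕ} (hn0 : 0 < n) : ∀ᶠ N : ℕ in Filter.atTop, ∀ lam : ℝ, 0 < lam →
    lam / (2 * Real.sqrt N) ≤ Phi n (WithLp.ofLp ⁻¹' B1 N lam : Set (Euc N)) := by
  obtain ⟨A, hA⟩ := moment_bound hn0
  have hlim := tendsto_pow_const_div_const_pow_of_one_lt (n + n * n) (r := (2 : ℝ)) (by norm_num)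
  have hA' : (0 : ℝ) < 1 / ((A + 1) * n ^ (n * n)) := by positivity
  filter_upwards [hlim.eventually (gt_mem_nhds hA'), Filter.eventually_ge_atTop n]
    with N hN1 hn lam hlam
  have hN : (1 : ℝ) ≤ N := by exact_mod_cast (by omega : 1 ≤ N)
  have hnr : (1 : ℝ) ≤ n := by exact_mod_cast hn0
  have hs : 0 < Real.sqrt N := Real.sqrt_pos.mpr (by linarith)
  let h : Orth N → ℝ≥0∞ := fun U =>
    volume (img (B1 N 1) (firstCols hn (U : Matrix (Fin N) (Fin N) ℝ)))
  have hht : ∀ U, h U ≠ ⊤ := fun U => (isCompact_img (isCompact_B1 N 1) _).measure_lt_top.ne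
  have hh0 : ∀ U, h U ≠ 0 := fun U => by
    refine (lt_of_lt_of_le ?_ (vol_firstCols_ge hn hn0 U)).ne'
    exact ENNReal.pow_pos (ENNReal.ofReal_pos.mpr (by positivity)) _
  have hhm : Measurable h :=
    (measurable_vol_img (isCompact_B1 N 1)).comp (continuous_firstCols hn).measurable
  have hproj : ∀ U : Orth N, projVol (rotSub n U) (WithLp.ofLp ⁻¹' B1 N lam : Set (Euc N)) =
      lam ^ n * (h U).toReal := by
    intro U
    rw [projVol, vol, projSet, volume_proj_eq hn, vol_img_B1 _ hlam, ENNReal.toReal_mul,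
      ENNReal.toReal_ofReal (by positivity)]
  have hint : ∀ U : Orth N, (lam ^ n * (h U).toReal) ^ (-(N : ℝ)) =
      (lam ^ (n * N))⁻¹ * ((h U)⁻¹ ^ N).toReal := by
    intro U
    rw [Real.rpow_neg (by positivity), Real.rpow_natCast, mul_pow, mul_inv, ← pow_mul,
      ENNReal.toReal_pow, ENNReal.toReal_inv, inv_pow]
  have hmeas : Measurable fun U => (h U)⁻¹ ^ N := hhm.inv.pow_const _
  have hfin : ∀ U, (h U)⁻¹ ^ N < ⊤ := fun U =>
    ENNReal.pow_lt_top (ENNReal.inv_lt_top.mpr (pos_iff_ne_zero.mpr (hh0 U)))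
  set L : ℝ≥0∞ := ∫⁻ U, (h U)⁻¹ ^ N ∂haarProb N with hL
  have hL0 : L ≠ 0 := by
    rw [hL, ← pos_iff_ne_zero, lintegral_pos_iff_support hmeas]
    have : (Function.support fun U => (h U)⁻¹ ^ N) = Set.univ := by
      ext U
      simp only [Function.mem_support, Set.mem_univ, iff_true]
      exact pow_ne_zero _ (ENNReal.inv_ne_zero.mpr (hht U))
    rw [this]
    simp
  have hLb : L ≤ ENNReal.ofReal ((2 * Real.sqrt N) ^ (n * N)) := by
    have h1 := hA N hn
    have h2 : ENNReal.ofReal (Real.sqrt N ^ n) ^ N * ((N ^ n * A : ℕ) *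
        (ENNReal.ofReal (2 * Real.sqrt N) ^ (n * n) *
          ((2 ^ n) ^ (N - n) * (ENNReal.ofReal (2 / n) ^ n)⁻¹ ^ n))) =
        ENNReal.ofReal ((Real.sqrt N ^ n) ^ N * (((N : ℝ) ^ n * A) * ((2 * Real.sqrt N) ^ (n * n) *
          ((2 ^ n) ^ (N - n) * (((2 / (n : ℝ)) ^ n)⁻¹ ^ n))))) := by
      have f1 : ENNReal.ofReal (Real.sqrt N ^ n) ^ N = ENNReal.ofReal ((Real.sqrt N ^ n) ^ N) :=
        (ENNReal.ofReal_pow (by positivity) N).symm
      have f2 : ((N ^ n * A : ℕ) : ℝ≥0∞) = ENNReal.ofReal ((N : ℝ) ^ n * A) := by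
        rw [← ENNReal.ofReal_natCast]; push_cast; rfl
      have f3 : ENNReal.ofReal (2 * Real.sqrt N) ^ (n * n) =
          ENNReal.ofReal ((2 * Real.sqrt N) ^ (n * n)) :=
        (ENNReal.ofReal_pow (by positivity) _).symm
      have f4 : ((2 : ℝ≥0∞) ^ n) ^ (N - n) = ENNReal.ofReal (((2 : ℝ) ^ n) ^ (N - n)) := by
        rw [ENNReal.ofReal_pow (by positivity), ENNReal.ofReal_pow (by positivity)]
        simp
      have f5 : (ENNReal.ofReal (2 / n) ^ n)⁻¹ ^ n =
          ENNReal.ofReal (((2 / (n : ℝ)) ^ n)⁻¹ ^ n) := by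
        rw [ENNReal.ofReal_pow (by positivity), ENNReal.ofReal_inv_of_pos (by positivity),
          ENNReal.ofReal_pow (by positivity)]
      rw [f1, f2, f3, f4, f5, ← ENNReal.ofReal_mul (by positivity),
        ← ENNReal.ofReal_mul (by positivity), ← ENNReal.ofReal_mul (by positivity),
        ← ENNReal.ofReal_mul (by positivity)]
    have h3 : (Real.sqrt N ^ n) ^ N * (((N : ℝ) ^ n * A) * ((2 * Real.sqrt N) ^ (n * n) *
          ((2 ^ n) ^ (N - n) * (((2 / (n : ℝ)) ^ n)⁻¹ ^ n)))) ≤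
        (2 * Real.sqrt N) ^ (n * N) * 2 ^ (n * N) := by
      have e1 : (2 * Real.sqrt N) ^ (n * n) ≤ (2 * (N : ℝ)) ^ (n * n) := by
        gcongr
        rw [Real.sqrt_le_iff]
        exact ⟨by linarith, by nlinarith⟩
      have e2 : ((2 : ℝ) ^ n) ^ (N - n) ≤ 2 ^ (n * N) := by
        rw [← pow_mul]
        exact pow_le_pow_right₀ (by norm_num) (Nat.mul_le_mul_left _ (Nat.sub_le _ _))
      have e3 : (((2 / (n : ℝ)) ^ n)⁻¹) ^ n = ((n : ℝ) / 2) ^ (n * n) := by
        rw [← inv_pow, inv_div, ← pow_mul]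
      have e4 : (N : ℝ) ^ n * A * ((2 * (N : ℝ)) ^ (n * n) * ((n : ℝ) / 2) ^ (n * n)) ≤
          2 ^ (n * N) := by
        have e5 : (2 * (N : ℝ)) ^ (n * n) * ((n : ℝ) / 2) ^ (n * n) =
            (N : ℝ) ^ (n * n) * (n : ℝ) ^ (n * n) := by
          rw [← mul_pow, ← mul_pow]; congr 1; ring
        rw [e5]
        rw [div_lt_div_iff₀ (by positivity) (by positivity), one_mul, pow_add] at hN1
        have e6 : (2 : ℝ) ^ N ≤ 2 ^ (n * N) :=
          pow_le_pow_right₀ (by norm_num) (Nat.le_mul_of_pos_left _ hn0)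
        have e7 : (0 : ℝ) ≤ (N : ℝ) ^ n * (N : ℝ) ^ (n * n) * (n : ℝ) ^ (n * n) := by positivity
        nlinarith
      rw [e3, ← pow_mul, mul_pow 2 (Real.sqrt N) (n * N)]
      calc Real.sqrt N ^ (n * N) * (((N : ℝ) ^ n * A) * ((2 * Real.sqrt N) ^ (n * n) *
            ((2 ^ n) ^ (N - n) * ((n : ℝ) / 2) ^ (n * n))))
          ≤ Real.sqrt N ^ (n * N) * (((N : ℝ) ^ n * A) * ((2 * (N : ℝ)) ^ (n * n) *
            (2 ^ (n * N) * ((n : ℝ) / 2) ^ (n * n)))) := by gcongr
        _ = Real.sqrt N ^ (n * N) * 2 ^ (n * N) *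
            ((N : ℝ) ^ n * A * ((2 * (N : ℝ)) ^ (n * n) * ((n : ℝ) / 2) ^ (n * n))) := by ring
        _ ≤ Real.sqrt N ^ (n * N) * 2 ^ (n * N) * 2 ^ (n * N) := by gcongr
        _ = _ := by ring
    rw [h2] at h1
    have h4 := h1.trans (ENNReal.ofReal_le_ofReal h3)
    rw [ENNReal.ofReal_mul (by positivity), ENNReal.ofReal_pow (p := 2) (by norm_num)] at h4
    simp only [ENNReal.ofReal_ofNat] at h4
    exact (ENNReal.mul_le_mul_iff_left (by simp) (by simp)).mp h4
  have hLt : L ≠ ⊤ := ne_top_of_le_ne_top ENNReal.ofReal_ne_top hLb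
  have hLr : L.toReal ≤ (2 * Real.sqrt N) ^ (n * N) :=
    ENNReal.toReal_le_of_le_ofReal (by positivity) hLb
  have hLpos : 0 < L.toReal := ENNReal.toReal_pos hL0 hLt
  simp only [Phi, hproj, hint]
  rw [integral_const_mul, integral_toReal hmeas.aemeasurable (Filter.Eventually.of_forall hfin),
    ← hL]
  have hnN : (0 : ℝ) < (n : ℝ) * N := by positivity
  have hexp : -1 / ((n : ℝ) * N) ≤ 0 := by
    rw [neg_div]; exact neg_nonpos.mpr (by positivity)
  calc lam / (2 * Real.sqrt N)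
      = (((lam / (2 * Real.sqrt N))⁻¹) ^ (n * N)) ^ (-1 / ((n : ℝ) * N)) := by
        rw [← Real.rpow_natCast, ← Real.rpow_mul (by positivity)]
        have : ((n * N : ℕ) : ℝ) * (-1 / ((n : ℝ) * N)) = -1 := by
          push_cast; field_simp
        rw [this, Real.rpow_neg_one, inv_inv]
    _ ≤ _ := by
        refine Real.rpow_le_rpow_of_nonpos (by positivity) ?_ hexp
        rw [inv_div, div_pow, div_eq_inv_mul]
        gcongr

end Pool.Agent.Lib.MP_ed9c69_gt
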