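import Pool.Agent.Lib.MP_ed9c69_gt.Proj
import Pool.Agent.Lib.MP_ed9c69_gt.NetC45

open MeasureTheory Matrix
open scoped ENNReal

namespace Pool.Agent.Lib.MP_ed9c69_gt

lemma pow_le_two_pow {M N : ℕ} (h : 625 * M ^ 2 ≤ N) : N ^ (3 * M) ≤ 2 ^ N := by
  have h1 := Nat.lt_succ_sqrt' N
  have h2 := Nat.sqrt_le' N
  have h3 : 25 * M ≤ N.sqrt := Nat.le_sqrt'.2 (by rw [mul_pow]; exact h)
  generalize N.sqrt = s at *
  have h4 : s + 1 ≤ 2 ^ s := Nat.lt_two_pow_self
  calc N ^ (3 * M) ≤ ((2 ^ s) ^ 2) ^ (3 * M) :=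
        Nat.pow_le_pow_left (h1.le.trans (Nat.pow_le_pow_left h4 2)) _
    _ = 2 ^ (s * (6 * M)) := by ring
    _ ≤ 2 ^ N := Nat.pow_le_pow_right two_pos (by nlinarith)

lemma Gamma_ge {s : ℝ} (hs : 0 < s) : s ^ s * Real.exp (-s) ≤ Real.Gamma (s + 1) := by
  have h1 := Real.GammaIntegral_convergent (s := s + 1) (by linarith)
  rw [Real.Gamma_eq_integral (by linarith), ← integral_exp_neg_Ioi, ← integral_const_mul]
  rw [add_sub_cancel_right] at h1 ⊢
  refine le_trans (setIntegral_mono_on ((integrableOn_exp_neg_Ioi s).const_mul _)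
    (h1.mono_set (Set.Ioi_subset_Ioi hs.le)) measurableSet_Ioi fun x hx => ?_)
    (setIntegral_mono_set h1 ?_ (Set.Ioi_subset_Ioi hs.le).eventuallyLE)
  · rw [mul_comm]
    gcongr
    exact le_of_lt hx
  · filter_upwards [self_mem_ae_restrict measurableSet_Ioi] with x hx
    have : 0 < x := hx
    positivity

lemma Phi_ball' {N n : ℕ} (hn0 : 0 < n) (hn : n ≤ N) {r : ℝ} (hr : 0 < r) :
    0 < Phi n (Metric.closedBall (0 : Euc N) r) ∧ Phi n (Metric.closedBall (0 : Euc N) r) ≤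
      r * Real.sqrt (2 * Real.pi * Real.exp 1 / n) := by
  have hn' : (0 : ℝ) < n := by exact_mod_cast hn0
  have hpi := Real.pi_pos
  have hG := Gamma_ge (s := n / 2) (by positivity)
  have hG0 : 0 < Real.Gamma (n / 2 + 1) := Real.Gamma_pos_of_pos (by positivity)
  have hvol : ∀ U : Orth N, projVol (rotSub n U) (Metric.closedBall (0 : Euc N) r) =
      r ^ n * (Real.sqrt Real.pi ^ n / Real.Gamma (n / 2 + 1)) := by
    intro U
    obtain ⟨b, -⟩ := exists_basis_rotSub hn U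
    have hrank : Module.finrank ℝ (rotSub n U) = n := by
      rw [Module.finrank_eq_card_basis b.toBasis, Fintype.card_fin]
    have : Nontrivial (rotSub n U) := Module.nontrivial_of_finrank_pos (R := ℝ) (by omega)
    rw [projVol, vol, projSet, proj_closedBall, InnerProductSpace.volume_closedBall, hrank,
      ENNReal.toReal_mul, ENNReal.toReal_pow, ENNReal.toReal_ofReal hr.le,
      ENNReal.toReal_ofReal (by positivity)]
  have hN : (N : ℝ) ≠ 0 := by exact_mod_cast (by omega : N ≠ 0)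
  simp only [Phi, hvol, integral_const, probReal_univ, one_smul]
  rw [← Real.rpow_mul (by positivity), show -(N : ℝ) * (-1 / ((n : ℝ) * N)) = (n : ℝ)⁻¹ by
    field_simp]
  refine ⟨by positivity, ?_⟩
  rw [Real.rpow_inv_le_iff_of_pos (by positivity) (by positivity) hn', Real.rpow_natCast, mul_pow]
  gcongr
  rw [div_le_iff₀ hG0]
  refine le_trans (le_of_eq ?_) (mul_le_mul_of_nonneg_left hG (by positivity))
  have h1 : ((n : ℝ) / 2) ^ ((n : ℝ) / 2) * Real.exp (-(n / 2)) =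
      Real.sqrt (n / 2 * Real.exp (-1)) ^ n := by
    rw [Real.sqrt_eq_rpow, ← Real.rpow_natCast, ← Real.rpow_mul (by positivity),
      Real.mul_rpow (by positivity) (by positivity), ← Real.exp_mul]
    congr 2 <;> ring
  rw [h1, ← mul_pow, ← Real.sqrt_mul (by positivity), Real.exp_neg]
  congr 2
  field_simp

/-- The main estimate on the negative moment, with an exponential net. -/
lemma moment_bound' {n M N : ℕ} (hn0 : 0 < n) (hn : n ≤ N) (hM : 5 ^ n ≤ M) (hMN : M ≤ N) :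
    (∫⁻ U : Orth N, (volume (img (B1 N 1)
        (firstCols hn (U : Matrix (Fin N) (Fin N) ℝ))))⁻¹ ^ N ∂haarProb N) * 2 ^ (n * N) ≤
      ENNReal.ofReal (Real.sqrt N ^ n) ^ N * ((N ^ M : ℕ) *
        (ENNReal.ofReal (2 * Real.sqrt N) ^ (n * M) *
          ((2 ^ n) ^ (N - M) * (ENNReal.ofReal (2 / n) ^ n)⁻¹ ^ M))) := by
  have hN : (0 : ℝ) < N := by exact_mod_cast (by omega : 0 < N)
  have hnr : (0 : ℝ) < n := by exact_mod_cast hn0
  have hs : 0 < Real.sqrt N := Real.sqrt_pos.mpr hN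
  set Δ : ℝ≥0∞ := ENNReal.ofReal (Real.sqrt N ^ n) with hΔ
  have hΔ0 : Δ ≠ 0 := by
    rw [hΔ]; exact (ENNReal.ofReal_pos.mpr (by positivity)).ne'
  have hΔt : Δ ≠ ⊤ := ENNReal.ofReal_ne_top
  set m' : ℝ≥0∞ := ENNReal.ofReal (2 / n) ^ n with hm'
  let φ : Orth N → ℝ≥0∞ := fun U =>
    (volume (img (B1 N 1) (firstCols hn (U : Matrix (Fin N) (Fin N) ℝ))))⁻¹ ^ N
  let ψ : (Fin N → Fin n → ℝ) → ℝ≥0∞ := fun G =>
    Set.indicator (Box N n (Real.sqrt N)) (fun G => (max (volume (img (B1 N 1) G)) m')⁻¹ ^ N) G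
  have hψ : Measurable ψ := by
    refine Measurable.indicator ?_ (measurableSet_Box _ _ _)
    exact ((measurable_vol_img (isCompact_B1 N 1)).max measurable_const).inv.pow_const _
  have key : ∀ G ∈ Box N n 1, ∫⁻ U, φ U ∂haarProb N ≤
      ∫⁻ U : Orth N, Δ ^ N * ψ (lmul (U : Matrix (Fin N) (Fin N) ℝ) G) ∂haarProb N := by
    intro G hG
    obtain ⟨V, S, hGVS, hS⟩ := exists_QR hn hG
    rw [← lintegral_mul_right_eq_self φ V]
    refine lintegral_mono fun U => ?_
    have h1 : lmul (U : Matrix (Fin N) (Fin N) ℝ) G = fun i j =>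
        (Matrix.of (firstCols hn ((U * V : Orth N) : Matrix (Fin N) (Fin N) ℝ)) * S) i j := by
      ext i j
      simp only [lmul]
      rw [hGVS, ← Matrix.mul_assoc]
      congr 2
    have h2 : volume (img (B1 N 1) (lmul (U : Matrix (Fin N) (Fin N) ℝ) G)) ≤
        Δ * volume (img (B1 N 1) (firstCols hn ((U * V : Orth N) : Matrix (Fin N) (Fin N) ℝ))) := by
      rw [h1, vol_img_mul]
      gcongr
      exact ENNReal.ofReal_le_ofReal hS
    have h3 : m' ≤
        Δ * volume (img (B1 N 1) (firstCols hn ((U * V : Orth N) : Matrix (Fin N) (Fin N) ℝ))) := by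
      refine le_trans (le_of_eq ?_) (mul_le_mul_right (vol_firstCols_ge hn hn0 (U * V)) Δ)
      rw [hΔ, hm', ENNReal.ofReal_pow hs.le, ← mul_pow, ← ENNReal.ofReal_mul hs.le]
      congr 2
      field_simp
    simp only [φ, ψ]
    rw [Set.indicator_of_mem (lmul_mem_Box U hG), ← mul_pow]
    gcongr
    have h4 := ENNReal.inv_le_inv.mpr (max_le h2 h3)
    rw [ENNReal.mul_inv (Or.inl hΔ0) (Or.inl hΔt)] at h4
    calc _ = Δ * (Δ⁻¹ * (volume (img (B1 N 1)
          (firstCols hn ((U * V : Orth N) : Matrix (Fin N) (Fin N) ℝ))))⁻¹) := by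
          rw [← mul_assoc, ENNReal.mul_inv_cancel hΔ0 hΔt, one_mul]
      _ ≤ _ := by gcongr
  have hmeas : Measurable (Function.uncurry fun (G : Fin N → Fin n → ℝ) (U : Orth N) =>
      Δ ^ N * ψ (lmul (U : Matrix (Fin N) (Fin N) ℝ) G)) := by
    have h1 : Continuous (fun p : (Fin N → Fin n → ℝ) × Orth N =>
        lmul (p.2 : Matrix (Fin N) (Fin N) ℝ) p.1) := continuous_lmul.comp continuous_swap
    exact (hψ.comp h1.measurable).const_mul _
  calc (∫⁻ U, φ U ∂haarProb N) * 2 ^ (n * N)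
      = ∫⁻ G, Set.indicator (Box N n 1) (fun _ => ∫⁻ U, φ U ∂haarProb N) G := by
        rw [lintegral_indicator_const (measurableSet_Box _ _ _), volume_Box]
        simp
    _ ≤ ∫⁻ G, ∫⁻ U : Orth N, Δ ^ N * ψ (lmul (U : Matrix (Fin N) (Fin N) ℝ) G) ∂haarProb N := by
        refine lintegral_mono fun G => ?_
        by_cases hG : G ∈ Box N n 1
        · rw [Set.indicator_of_mem hG]; exact key G hG
        · rw [Set.indicator_of_notMem hG]; exact zero_le
    _ = ∫⁻ U : Orth N, ∫⁻ G, Δ ^ N * ψ (lmul (U : Matrix (Fin N) (Fin N) ℝ) G) ∂volume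
          ∂haarProb N := lintegral_lintegral_swap hmeas.aemeasurable
    _ = ∫⁻ _U : Orth N, Δ ^ N * ∫⁻ G, ψ G ∂volume ∂haarProb N := by
        refine lintegral_congr fun U => ?_
        rw [lintegral_const_mul' _ _ (ENNReal.pow_ne_top hΔt),
          (measurePreserving_lmul U).lintegral_comp hψ]
    _ = Δ ^ N * ∫⁻ G, ψ G := by simp
    _ ≤ _ := by
        gcongr
        exact count_bound' hn hM hMN _ _

lemma Phi_cross_ge' {n N : ℕ} (hn0 : 0 < n) (hN1 : 25 ^ (n + 2) ≤ N) {lam : ℝ} (hlam : 0 < lam) :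
    lam / (2 * Real.sqrt N) ≤ Phi n (WithLp.ofLp ⁻¹' B1 N lam : Set (Euc N)) := by
  obtain ⟨M, hM⟩ : ∃ M, M = 5 ^ n := ⟨_, rfl⟩
  have hN2 : 625 * M ^ 2 ≤ N := by
    refine le_of_eq_of_le ?_ hN1
    rw [hM, ← pow_mul, mul_comm n, pow_mul, pow_add]
    ring
  have hnM : n < M := hM ▸ Nat.lt_pow_self (by norm_num)
  have hMN : M ≤ N := by nlinarith
  have hn : n ≤ N := by omega
  have hN : (1 : ℝ) ≤ N := by exact_mod_cast (by omega : 1 ≤ N)
  have hnr : (1 : ℝ) ≤ n := by exact_mod_cast hn0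
  have hs : 0 < Real.sqrt N := Real.sqrt_pos.mpr (by linarith)
  let h : Orth N → ℝ≥0∞ := fun U =>
    volume (img (B1 N 1) (firstCols hn (U : Matrix (Fin N) (Fin N) ℝ)))
  have hht : ∀ U, h U ≠ ⊤ := fun U => (isCompact_img (isCompact_B1 N 1) _).measure_lt_top.ne
  have hh0 : ∀ U, h U ≠ 0 := fun U => by
    refine (lt_of_lt_of_le ?_ (vol_firstCols_ge hn hn0 U)).ne'
    exact ENNReal.pow_pos (ENNReal.ofReal_pos.mpr (by positivity)) _
  have hhm : Measurable h :=
    (measurable_vol_img (isCompact_B1 N 1)).comp (continuous_firstCols hn).measurable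
  have hproj : ∀ U : Orth N, projVol (rotSub n U) (WithLp.ofLp ⁻¹' B1 N lam : Set (Euc N)) =
      lam ^ n * (h U).toReal := by
    intro U
    rw [projVol, vol, projSet, volume_proj_eq hn, vol_img_B1 _ hlam, ENNReal.toReal_mul,
      ENNReal.toReal_ofReal (by positivity)]
  have hint : ∀ U : Orth N, (lam ^ n * (h U).toReal) ^ (-(N : ℝ)) =
      (lam ^ (n * N))⁻¹ * ((h U)⁻¹ ^ N).toReal := by
    intro U
    rw [Real.rpow_neg (by positivity), Real.rpow_natCast, mul_pow, mul_inv, ← pow_mul,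
      ENNReal.toReal_pow, ENNReal.toReal_inv, inv_pow]
  have hmeas : Measurable fun U => (h U)⁻¹ ^ N := hhm.inv.pow_const _
  have hfin : ∀ U, (h U)⁻¹ ^ N < ⊤ := fun U =>
    ENNReal.pow_lt_top (ENNReal.inv_lt_top.mpr (pos_iff_ne_zero.mpr (hh0 U)))
  set L : ℝ≥0∞ := ∫⁻ U, (h U)⁻¹ ^ N ∂haarProb N with hL
  have hL0 : L ≠ 0 := by
    rw [hL, ← pos_iff_ne_zero, lintegral_pos_iff_support hmeas]
    have : (Function.support fun U => (h U)⁻¹ ^ N) = Set.univ := by
      ext U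
      simp only [Function.mem_support, Set.mem_univ, iff_true]
      exact pow_ne_zero _ (ENNReal.inv_ne_zero.mpr (hht U))
    rw [this]
    simp
  have hLb : L ≤ ENNReal.ofReal ((2 * Real.sqrt N) ^ (n * N)) := by
    have h1 := moment_bound' hn0 hn hM.ge hMN
    have h2 : ENNReal.ofReal (Real.sqrt N ^ n) ^ N * ((N ^ M : ℕ) *
        (ENNReal.ofReal (2 * Real.sqrt N) ^ (n * M) *
          ((2 ^ n) ^ (N - M) * (ENNReal.ofReal (2 / n) ^ n)⁻¹ ^ M))) =
        ENNReal.ofReal ((Real.sqrt N ^ n) ^ N * (((N : ℝ) ^ M) * ((2 * Real.sqrt N) ^ (n * M) *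
          ((2 ^ n) ^ (N - M) * (((2 / (n : ℝ)) ^ n)⁻¹ ^ M))))) := by
      have f1 : ENNReal.ofReal (Real.sqrt N ^ n) ^ N = ENNReal.ofReal ((Real.sqrt N ^ n) ^ N) :=
        (ENNReal.ofReal_pow (by positivity) N).symm
      have f2 : ((N ^ M : ℕ) : ℝ≥0∞) = ENNReal.ofReal ((N : ℝ) ^ M) := by
        rw [← ENNReal.ofReal_natCast]; push_cast; rfl
      have f3 : ENNReal.ofReal (2 * Real.sqrt N) ^ (n * M) =
          ENNReal.ofReal ((2 * Real.sqrt N) ^ (n * M)) :=
        (ENNReal.ofReal_pow (by positivity) _).symm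
      have f4 : ((2 : ℝ≥0∞) ^ n) ^ (N - M) = ENNReal.ofReal (((2 : ℝ) ^ n) ^ (N - M)) := by
        rw [ENNReal.ofReal_pow (by positivity), ENNReal.ofReal_pow (by positivity)]
        simp
      have f5 : (ENNReal.ofReal (2 / n) ^ n)⁻¹ ^ M =
          ENNReal.ofReal (((2 / (n : ℝ)) ^ n)⁻¹ ^ M) := by
        rw [ENNReal.ofReal_pow (by positivity), ENNReal.ofReal_inv_of_pos (by positivity),
          ENNReal.ofReal_pow (by positivity)]
      rw [f1, f2, f3, f4, f5, ← ENNReal.ofReal_mul (by positivity),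
        ← ENNReal.ofReal_mul (by positivity), ← ENNReal.ofReal_mul (by positivity),
        ← ENNReal.ofReal_mul (by positivity)]
    have h3 : (Real.sqrt N ^ n) ^ N * (((N : ℝ) ^ M) * ((2 * Real.sqrt N) ^ (n * M) *
          ((2 ^ n) ^ (N - M) * (((2 / (n : ℝ)) ^ n)⁻¹ ^ M)))) ≤
        (2 * Real.sqrt N) ^ (n * N) * 2 ^ (n * N) := by
      have e1 : (2 * Real.sqrt N) ^ (n * M) ≤ (2 * (N : ℝ)) ^ (n * M) := by
        gcongr
        rw [Real.sqrt_le_iff]
        exact ⟨by linarith, by nlinarith⟩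
      have e2 : ((2 : ℝ) ^ n) ^ (N - M) ≤ 2 ^ (n * N) := by
        rw [← pow_mul]
        exact pow_le_pow_right₀ (by norm_num) (Nat.mul_le_mul_left _ (Nat.sub_le _ _))
      have e3 : (((2 / (n : ℝ)) ^ n)⁻¹) ^ M = ((n : ℝ) / 2) ^ (n * M) := by
        rw [← inv_pow, inv_div, ← pow_mul]
      have e4 : (N : ℝ) ^ M * ((2 * (N : ℝ)) ^ (n * M) * ((n : ℝ) / 2) ^ (n * M)) ≤
          2 ^ (n * N) := by
        have e5 : (2 * (N : ℝ)) ^ (n * M) * ((n : ℝ) / 2) ^ (n * M) =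
            (N : ℝ) ^ (n * M) * (n : ℝ) ^ (n * M) := by
          rw [← mul_pow, ← mul_pow]; congr 1; ring
        have e6 : (n : ℝ) ≤ N := by exact_mod_cast hn
        have e7 : (N : ℝ) ^ M ≤ N ^ (n * M) := pow_le_pow_right₀ hN (Nat.le_mul_of_pos_left _ hn0)
        have e8 : (N : ℝ) ^ (3 * M) ≤ 2 ^ N := by exact_mod_cast pow_le_two_pow hN2
        rw [e5]
        calc (N : ℝ) ^ M * ((N : ℝ) ^ (n * M) * (n : ℝ) ^ (n * M))
            ≤ N ^ (n * M) * ((N : ℝ) ^ (n * M) * (N : ℝ) ^ (n * M)) := by gcongr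
          _ = (N ^ (3 * M)) ^ n := by ring
          _ ≤ (2 ^ N) ^ n := by gcongr
          _ = _ := by ring
      rw [e3, ← pow_mul, mul_pow 2 (Real.sqrt N) (n * N)]
      calc Real.sqrt N ^ (n * N) * (((N : ℝ) ^ M) * ((2 * Real.sqrt N) ^ (n * M) *
            ((2 ^ n) ^ (N - M) * ((n : ℝ) / 2) ^ (n * M))))
          ≤ Real.sqrt N ^ (n * N) * (((N : ℝ) ^ M) * ((2 * (N : ℝ)) ^ (n * M) *
            (2 ^ (n * N) * ((n : ℝ) / 2) ^ (n * M)))) := by gcongr
        _ = Real.sqrt N ^ (n * N) * 2 ^ (n * N) *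
            ((N : ℝ) ^ M * ((2 * (N : ℝ)) ^ (n * M) * ((n : ℝ) / 2) ^ (n * M))) := by ring
        _ ≤ Real.sqrt N ^ (n * N) * 2 ^ (n * N) * 2 ^ (n * N) := by gcongr
        _ = _ := by ring
    rw [h2] at h1
    have h4 := h1.trans (ENNReal.ofReal_le_ofReal h3)
    rw [ENNReal.ofReal_mul (by positivity), ENNReal.ofReal_pow (p := 2) (by norm_num)] at h4
    simp only [ENNReal.ofReal_ofNat] at h4
    exact (ENNReal.mul_le_mul_iff_left (by simp) (by simp)).mp h4
  have hLt : L ≠ ⊤ := ne_top_of_le_ne_top ENNReal.ofReal_ne_top hLb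
  have hLr : L.toReal ≤ (2 * Real.sqrt N) ^ (n * N) :=
    ENNReal.toReal_le_of_le_ofReal (by positivity) hLb
  have hLpos : 0 < L.toReal := ENNReal.toReal_pos hL0 hLt
  simp only [Phi, hproj, hint]
  rw [integral_const_mul, integral_toReal hmeas.aemeasurable (Filter.Eventually.of_forall hfin),
    ← hL]
  have hnN : (0 : ℝ) < (n : ℝ) * N := by positivity
  have hexp : -1 / ((n : ℝ) * N) ≤ 0 := by
    rw [neg_div]; exact neg_nonpos.mpr (by positivity)
  calc lam / (2 * Real.sqrt N)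
      = (((lam / (2 * Real.sqrt N))⁻¹) ^ (n * N)) ^ (-1 / ((n : ℝ) * N)) := by
        rw [← Real.rpow_natCast, ← Real.rpow_mul (by positivity)]
        have : ((n * N : ℕ) : ℝ) * (-1 / ((n : ℝ) * N)) = -1 := by
          push_cast; field_simp
        rw [this, Real.rpow_neg_one, inv_inv]
    _ ≤ _ := by
        refine Real.rpow_le_rpow_of_nonpos (by positivity) ?_ hexp
        rw [inv_div, div_pow, div_eq_inv_mul]
        gcongr

end Pool.Agent.Lib.MP_ed9c69_gt
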